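import Pool.Agent.MP_fb66b8_al.Cochain

/-!
# MP_fb66b8_al: the bridge between cocycles and Mathlib's group homology
-/

set_option autoImplicit false

open CategoryTheory

namespace Pool.Agent.MP_fb66b8_al

section Generic

theorem pi_eq_zero_of_boundary (K : ChainComplex (ModuleCat.{0} ℚ) ℕ) (x : K.cycles 4)
    (y : K.X 5) (h : (K.iCycles 4).hom x = (K.d 5 4).hom y) : (K.homologyπ 4).hom x = 0 := by
  have h1 : x = (K.toCycles 5 4).hom y := by
    have hmono : Function.Injective (K.iCycles 4).hom :=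
      (ModuleCat.mono_iff_injective (K.iCycles 4)).1 inferInstance
    apply hmono
    rw [h]
    have := K.toCycles_i 5 4
    rw [← this]
    rfl
  rw [h1]
  have h2 := K.toCycles_comp_homologyπ 5 4
  have h3 := congrArg (fun f => f.hom y) h2
  exact h3

theorem functional_eq_zero (K : ChainComplex (ModuleCat.{0} ℚ) ℕ) (x : K.cycles 4)
    (φ : K.X 4 ⟶ ModuleCat.of ℚ ℚ) (hφ : K.d 5 4 ≫ φ = 0) (hx : (K.homologyπ 4).hom x = 0) :
    φ.hom ((K.iCycles 4).hom x) = 0 := by
  have h1 : K.iCycles 4 ≫ φ =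
      K.homologyπ 4 ≫ K.homologyι 4 ≫ K.descOpcycles φ 5 (by simp) hφ := by
    rw [← Category.assoc, K.homology_π_ι, Category.assoc, K.p_descOpcycles]
  have h3 := congrArg (fun f => f.hom x) h1
  simp only [ModuleCat.hom_comp, LinearMap.comp_apply] at h3
  rw [h3, hx]
  simp

end Generic

section Bridge

variable {G : Type} [Group G]

/-- the trivial rational representation -/
abbrev TQ (G : Type) [Group G] : Rep ℚ G := Rep.trivial ℚ G ℚ

noncomputable def sg3 (x y z : G) : (Fin 3 → G) →₀ ℚ := Finsupp.single ![x, y, z] 1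

noncomputable def sg4 (x y z w : G) : (Fin 4 → G) →₀ ℚ := Finsupp.single ![x, y, z, w] 1

theorem contract3 (x y z w : G) :
    (Fin.contractNth (0 : Fin 4) (· * ·) ![x, y, z, w] = ![x * y, z, w]) ∧
    (Fin.contractNth (1 : Fin 4) (· * ·) ![x, y, z, w] = ![x, y * z, w]) ∧
    (Fin.contractNth (2 : Fin 4) (· * ·) ![x, y, z, w] = ![x, y, z * w]) ∧
    (Fin.contractNth (3 : Fin 4) (· * ·) ![x, y, z, w] = ![x, y, z]) := by
  refine ⟨?_, ?_, ?_, ?_⟩ <;>
  · funext i
    fin_cases i <;> simp [Fin.contractNth]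

theorem contract4 (g : Fin 5 → G) :
    (Fin.contractNth (0 : Fin 5) (· * ·) g = ![g 0 * g 1, g 2, g 3, g 4]) ∧
    (Fin.contractNth (1 : Fin 5) (· * ·) g = ![g 0, g 1 * g 2, g 3, g 4]) ∧
    (Fin.contractNth (2 : Fin 5) (· * ·) g = ![g 0, g 1, g 2 * g 3, g 4]) ∧
    (Fin.contractNth (3 : Fin 5) (· * ·) g = ![g 0, g 1, g 2, g 3 * g 4]) ∧
    (Fin.contractNth (4 : Fin 5) (· * ·) g = ![g 0, g 1, g 2, g 3]) := by
  refine ⟨?_, ?_, ?_, ?_, ?_⟩ <;>
  · funext i
    fin_cases i <;> simp [Fin.contractNth]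

theorem d_sg4 (x y z w : G) :
    (groupHomology.inhomogeneousChains.d (TQ G) 3).hom (sg4 x y z w) = del3 sg3 x y z w := by
  simp only [sg4, del3, sg3]
  erw [groupHomology.inhomogeneousChains.d_single (A := TQ G)]
  obtain ⟨h0, h1, h2, h3⟩ := contract3 x y z w
  rw [Fin.sum_univ_four, h0, h1, h2, h3]
  have e : (fun i : Fin 3 => ![x, y, z, w] i.succ) = ![y, z, w] := by
    funext i; fin_cases i <;> rfl
  rw [e]
  norm_num
  abel

theorem d_single5 (g : Fin 5 → G) :
    (groupHomology.inhomogeneousChains.d (TQ G) 4).hom (Finsupp.single g 1) =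
      del4 sg4 (g 0) (g 1) (g 2) (g 3) (g 4) := by
  simp only [del4, sg4]
  erw [groupHomology.inhomogeneousChains.d_single (A := TQ G)]
  obtain ⟨h0, h1, h2, h3, h4⟩ := contract4 g
  rw [Fin.sum_univ_five, h0, h1, h2, h3, h4]
  have e : (fun i : Fin 4 => g i.succ) = ![g 1, g 2, g 3, g 4] := by
    funext i; fin_cases i <;> rfl
  rw [e]
  norm_num
  abel

/-- the linear functional on `4`-chains defined by a `4`-cochain -/
noncomputable def Phi (f : G → G → G → G → ℚ) : ((Fin 4 → G) →₀ ℚ) →ₗ[ℚ] ℚ :=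
  Finsupp.linearCombination ℚ (fun x : Fin 4 → G => f (x 0) (x 1) (x 2) (x 3))

theorem Phi_sg4 (f : G → G → G → G → ℚ) (x y z w : G) : Phi f (sg4 x y z w) = f x y z w := by
  simp [Phi, sg4]

theorem Phi_d (f : G → G → G → G → ℚ) (hf : ∀ x y z w v, del4 f x y z w v = 0) :
    (Phi f) ∘ₗ (groupHomology.inhomogeneousChains.d (TQ G) 4).hom = 0 := by
  apply Finsupp.lhom_ext'
  intro g
  apply LinearMap.ext_ring
  simp only [LinearMap.comp_apply, LinearMap.zero_apply, Finsupp.lsingle_apply]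
  erw [d_single5 g]
  have := hf (g 0) (g 1) (g 2) (g 3) (g 4)
  simp only [del4] at this ⊢
  simp only [map_sub, map_add, Phi_sg4]
  exact this

/-- the antisymmetrised `4`-chain -/
noncomputable def zeta (a b c d : G) : (Fin 4 → G) →₀ ℚ := ev4 sg4 a b c d

theorem Phi_zeta (f : G → G → G → G → ℚ) (a b c d : G) :
    Phi f (zeta a b c d) = ev4 f a b c d := by
  rw [zeta, map_ev4]
  simp only [Phi_sg4]

theorem d_zeta (a b c d : G) (hab : Commute a b) (hac : Commute a c)
    (had : Commute a d) (hbc : Commute b c) (hbd : Commute b d) (hcd : Commute c d) :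
    (groupHomology.inhomogeneousChains.d (TQ G) 3).hom (zeta a b c d) = 0 := by
  rw [zeta]
  erw [map_ev4 (groupHomology.inhomogeneousChains.d (TQ G) 3).hom]
  have : (fun x y z w : G => (groupHomology.inhomogeneousChains.d (TQ G) 3).hom (sg4 x y z w)) =
      fun x y z w => del3 sg3 x y z w := by
    funext x y z w
    exact d_sg4 x y z w
  erw [this]
  exact ev4_del3 sg3 a b c d hab hac had hbc hbd hcd

/-- Over `ℚ`, a chain killed by all cocycles is a boundary. -/
theorem exists_boundary (c : (Fin 4 → G) →₀ ℚ)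
    (h : ∀ f : G → G → G → G → ℚ, (∀ x y z w v, del4 f x y z w v = 0) → Phi f c = 0) :
    ∃ y : (Fin 5 → G) →₀ ℚ,
      (groupHomology.inhomogeneousChains.d (TQ G) 4).hom y = c := by
  by_contra hne
  push Not at hne
  have hc : c ∉ LinearMap.range (groupHomology.inhomogeneousChains.d (TQ G) 4).hom := by
    rintro ⟨y, hy⟩
    exact hne y hy
  obtain ⟨φ, hφ1, hφ2⟩ := Submodule.exists_le_ker_of_notMem hc
  have hPhi : Phi (fun x y z w : G => φ (sg4 x y z w)) = φ := by
    apply Finsupp.lhom_ext'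
    intro g
    apply LinearMap.ext_ring
    simp only [LinearMap.comp_apply, Finsupp.lsingle_apply, Phi, Finsupp.linearCombination_single,
      one_smul, sg4]
    congr 2
    funext i
    fin_cases i <;> rfl
  have h0 := h (fun x y z w : G => φ (sg4 x y z w)) (by
    intro x y z w v
    have h1 : φ (del4 sg4 x y z w v) = 0 := by
      have h2 := d_single5 ![x, y, z, w, v]
      have h3 : (![x, y, z, w, v] : Fin 5 → G) 0 = x ∧ (![x, y, z, w, v] : Fin 5 → G) 1 = y ∧
          (![x, y, z, w, v] : Fin 5 → G) 2 = z ∧ (![x, y, z, w, v] : Fin 5 → G) 3 = w ∧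
          (![x, y, z, w, v] : Fin 5 → G) 4 = v := ⟨rfl, rfl, rfl, rfl, rfl⟩
      rw [h3.1, h3.2.1, h3.2.2.1, h3.2.2.2.1, h3.2.2.2.2] at h2
      rw [← h2]
      exact hφ2 ⟨_, rfl⟩
    simpa only [del4, map_sub, map_add] using h1)
  rw [hPhi] at h0
  exact hφ1 h0

variable {H : Type} [Group H]

theorem chainsMap_zeta (ι : G →* H) (a b c d : G) :
    ((groupHomology.chainsMap (A := TQ G) (B := TQ H) ι (𝟙 _)).f 4).hom (zeta a b c d) =
      zeta (ι a) (ι b) (ι c) (ι d) := by
  rw [zeta]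
  erw [map_ev4 ((groupHomology.chainsMap (A := TQ G) (B := TQ H) ι (𝟙 _)).f 4).hom]
  have : (fun x y z w : G =>
      ((groupHomology.chainsMap (A := TQ G) (B := TQ H) ι (𝟙 _)).f 4).hom (sg4 x y z w)) =
      fun x y z w => sg4 (ι x) (ι y) (ι z) (ι w) := by
    funext x y z w
    simp only [sg4]
    erw [groupHomology.chainsMap_f_single (A := TQ G) (B := TQ H) ι (𝟙 _) 4 ![x, y, z, w] 1]
    have e : (ι ∘ ![x, y, z, w] : Fin 4 → H) = ![ι x, ι y, ι z, ι w] := by
      funext i; fin_cases i <;> rfl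
    rw [e]
    rfl
  erw [this]
  rfl

theorem not_injective (ι : G →* H) (a b c d : G) (hab : Commute a b) (hac : Commute a c)
    (had : Commute a d) (hbc : Commute b c) (hbd : Commute b d) (hcd : Commute c d)
    (z : G → G → G → G → ℚ) (hz : ∀ x y z' w v, del4 z x y z' w v = 0) (hz0 : ev4 z a b c d ≠ 0)
    (hf : ∀ f : H → H → H → H → ℚ, (∀ x y z w v, del4 f x y z w v = 0) →
      ev4 f (ι a) (ι b) (ι c) (ι d) = 0) :
    ¬ Function.Injective
        (groupHomology.map (A := Rep.trivial ℚ G ℚ) (B := Rep.trivial ℚ H ℚ) ι (𝟙 _) 4).hom := by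
  intro hinj
  have hd : (groupHomology.inhomogeneousChains (TQ G)).d 4 3 (zeta a b c d) = 0 := by
    rw [groupHomology.inhomogeneousChains.d_def]
    exact d_zeta a b c d hab hac had hbc hbd hcd
  set ζ := groupHomology.cyclesMk (A := TQ G) 4 3 (by simp) (zeta a b c d) hd with hζ
  have hiζ : ((groupHomology.inhomogeneousChains (TQ G)).iCycles 4).hom ζ = zeta a b c d :=
    groupHomology.iCycles_mk (A := TQ G) (by simp) (zeta a b c d) hd
  -- the image class vanishes
  obtain ⟨y, hy⟩ := exists_boundary (zeta (ι a) (ι b) (ι c) (ι d)) (fun f hf' => by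
    rw [Phi_zeta]; exact hf f hf')
  have h1 : ((groupHomology.inhomogeneousChains (TQ H)).homologyπ 4).hom
      ((groupHomology.cyclesMap (A := TQ G) (B := TQ H) ι (𝟙 _) 4).hom ζ) = 0 := by
    apply pi_eq_zero_of_boundary _ _ y
    have h2 := HomologicalComplex.cyclesMap_i
      (groupHomology.chainsMap (A := TQ G) (B := TQ H) ι (𝟙 _)) 4
    have h3 := congrArg (fun f => f.hom ζ) h2
    simp only [ModuleCat.hom_comp, LinearMap.comp_apply] at h3
    refine h3.trans ?_
    rw [hiζ]
    refine (chainsMap_zeta ι a b c d).trans ?_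
    rw [groupHomology.inhomogeneousChains.d_def]
    exact hy.symm
  have h2 : (groupHomology.map (A := Rep.trivial ℚ G ℚ) (B := Rep.trivial ℚ H ℚ) ι (𝟙 _) 4).hom
      (((groupHomology.inhomogeneousChains (TQ G)).homologyπ 4).hom ζ) = 0 := by
    have h3 := groupHomology.π_map (A := TQ G) (B := TQ H) ι (𝟙 _) 4
    have h4 := congrArg (fun f => f.hom ζ) h3
    simp only [ModuleCat.hom_comp, LinearMap.comp_apply] at h4
    exact h4.trans h1
  have h3 : ((groupHomology.inhomogeneousChains (TQ G)).homologyπ 4).hom ζ = 0 := by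
    apply hinj
    refine h2.trans ?_
    exact (LinearMap.map_zero
      (groupHomology.map (A := Rep.trivial ℚ G ℚ) (B := Rep.trivial ℚ H ℚ) ι (𝟙 _) 4).hom).symm
  have h4 := functional_eq_zero (groupHomology.inhomogeneousChains (TQ G)) ζ
    (ModuleCat.ofHom (Phi z)) (by
      rw [groupHomology.inhomogeneousChains.d_def]
      apply ModuleCat.hom_ext
      exact Phi_d z hz) h3
  rw [hiζ] at h4
  apply hz0
  rw [← Phi_zeta]
  exact h4

end Bridge

end Pool.Agent.MP_fb66b8_al
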