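import Mathlib

/-!
# MP_fb66b8_al: elementary cochain calculus

Inhomogeneous rational cochains of a group in low degrees, the insertion operators
`P2`, `P3`, `P4` with a commuting element, and the antisymmetrised evaluation `ev4` of a
`4`-cochain on a commuting quadruple.
-/

set_option autoImplicit false

namespace Pool.Agent.MP_fb66b8_al

section Defs

variable {G : Type*} {M : Type*} [AddCommGroup M]

/-- coboundary of a `1`-cochain -/
def del1 [Mul G] (u : G → M) (x y : G) : M := u y - u (x * y) + u x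

/-- coboundary of a `2`-cochain -/
def del2 [Mul G] (u : G → G → M) (x y z : G) : M := u y z - u (x * y) z + u x (y * z) - u x y

/-- coboundary of a `3`-cochain -/
def del3 [Mul G] (u : G → G → G → M) (x y z w : G) : M :=
  u y z w - u (x * y) z w + u x (y * z) w - u x y (z * w) + u x y z

/-- coboundary of a `4`-cochain -/
def del4 [Mul G] (u : G → G → G → G → M) (x y z w v : G) : M :=
  u y z w v - u (x * y) z w v + u x (y * z) w v - u x y (z * w) v + u x y z (w * v) - u x y z w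

/-- insertion of `g` in a `2`-cochain -/
def P2 (u : G → G → M) (g x : G) : M := u g x - u x g

/-- insertion of `g` in a `3`-cochain -/
def P3 (u : G → G → G → M) (g x y : G) : M := u g x y - u x g y + u x y g

/-- insertion of `g` in a `4`-cochain -/
def P4 (u : G → G → G → G → M) (g x y z : G) : M :=
  u g x y z - u x g y z + u x y g z - u x y z g

/-- antisymmetrised evaluation -/
def ev4 (f : G → G → G → G → M) (g₁ g₂ g₃ g₄ : G) : M :=
  P2 (P3 (P4 f g₁) g₂) g₃ g₄

theorem map_ev4 {N : Type*} [AddCommGroup N] {Φ : Type*} [FunLike Φ M N] [AddMonoidHomClass Φ M N]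
    (φ : Φ) (f : G → G → G → G → M) (a b c d : G) :
    φ (ev4 f a b c d) = ev4 (fun x y z w => φ (f x y z w)) a b c d := by
  simp only [ev4, P2, P3, P4, map_sub, map_add]

theorem ev4_swap12 (f : G → G → G → G → M) (a b c d : G) : ev4 f b a c d = - ev4 f a b c d := by
  simp only [ev4, P2, P3, P4]; abel

theorem ev4_swap23 (f : G → G → G → G → M) (a b c d : G) : ev4 f a c b d = - ev4 f a b c d := by
  simp only [ev4, P2, P3, P4]; abel

theorem ev4_swap34 (f : G → G → G → G → M) (a b c d : G) : ev4 f a b d c = - ev4 f a b c d := by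
  simp only [ev4, P2, P3, P4]; abel

theorem ev4_swap14 (f : G → G → G → G → M) (a b c d : G) : ev4 f d b c a = - ev4 f a b c d := by
  simp only [ev4, P2, P3, P4]; abel

theorem ev4_swap24 (f : G → G → G → G → M) (a b c d : G) : ev4 f a d c b = - ev4 f a b c d := by
  simp only [ev4, P2, P3, P4]; abel

theorem ev4_sub (f f' : G → G → G → G → M) (a b c d : G) :
    ev4 (fun x y z w => f x y z w - f' x y z w) a b c d = ev4 f a b c d - ev4 f' a b c d := by
  simp only [ev4, P2, P3, P4]; abel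

/-- the antisymmetrised evaluation of a coboundary on a commuting quadruple vanishes -/
theorem ev4_del3 [Mul G] (h : G → G → G → M) (a b c d : G) (hab : Commute a b) (hac : Commute a c)
    (had : Commute a d) (hbc : Commute b c) (hbd : Commute b d) (hcd : Commute c d) :
    ev4 (fun x y z w => del3 h x y z w) a b c d = 0 := by
  simp only [ev4, P2, P3, P4, del3]
  rw [show b * a = a * b from hab.symm.eq, show c * a = a * c from hac.symm.eq,
    show d * a = a * d from had.symm.eq, show c * b = b * c from hbc.symm.eq,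
    show d * b = b * d from hbd.symm.eq, show d * c = c * d from hcd.symm.eq]
  abel

end Defs

section Cochain

variable {G : Type*} [Group G]

theorem del3_P4 (f : G → G → G → G → ℚ) (hf : ∀ x y z w v, del4 f x y z w v = 0)
    (g x y z w : G) (hx : Commute g x) (hy : Commute g y) (hz : Commute g z) (hw : Commute g w) :
    del3 (P4 f g) x y z w = 0 := by
  have h1 := hf g x y z w
  have h2 := hf x g y z w
  have h3 := hf x y g z w
  have h4 := hf x y z g w
  have h5 := hf x y z w g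
  simp only [del4] at h1 h2 h3 h4 h5
  simp only [del3, P4]
  rw [hx.eq] at h1
  rw [hy.eq] at h2
  rw [hz.eq] at h3
  rw [hw.eq] at h4
  linarith

theorem del2_P3 (S : Set G) (u : G → G → G → ℚ)
    (hu : ∀ x ∈ S, ∀ y ∈ S, ∀ z ∈ S, ∀ w ∈ S, del3 u x y z w = 0)
    (g x y z : G) (hg : g ∈ S) (hxS : x ∈ S) (hyS : y ∈ S) (hzS : z ∈ S)
    (hx : Commute g x) (hy : Commute g y) (hz : Commute g z) :
    del2 (P3 u g) x y z = 0 := by
  have h1 := hu g hg x hxS y hyS z hzS
  have h2 := hu x hxS g hg y hyS z hzS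
  have h3 := hu x hxS y hyS g hg z hzS
  have h4 := hu x hxS y hyS z hzS g hg
  simp only [del3] at h1 h2 h3 h4
  simp only [del2, P3]
  rw [hx.eq] at h1
  rw [hy.eq] at h2
  rw [hz.eq] at h3
  linarith

theorem del1_P2 (S : Set G) (u : G → G → ℚ)
    (hu : ∀ x ∈ S, ∀ y ∈ S, ∀ z ∈ S, del2 u x y z = 0)
    (g x y : G) (hg : g ∈ S) (hxS : x ∈ S) (hyS : y ∈ S)
    (hx : Commute g x) (hy : Commute g y) :
    P2 u g (x * y) = P2 u g x + P2 u g y := by
  have h1 := hu g hg x hxS y hyS
  have h2 := hu x hxS g hg y hyS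
  have h3 := hu x hxS y hyS g hg
  simp only [del2] at h1 h2 h3
  simp only [P2]
  rw [hx.eq] at h1
  rw [hy.eq] at h2
  linarith

/-- The `2`-cochain obtained from a `4`-cocycle by inserting two commuting elements is a cocycle
on the common centraliser. -/
theorem del2_PP (f : G → G → G → G → ℚ) (hf : ∀ x y z w v, del4 f x y z w v = 0)
    (g h x y z : G) (hgh : Commute g h)
    (hgx : Commute g x) (hgy : Commute g y) (hgz : Commute g z)
    (hhx : Commute h x) (hhy : Commute h y) (hhz : Commute h z) :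
    del2 (P3 (P4 f g) h) x y z = 0 := by
  refine del2_P3 {k | Commute g k} (P4 f g) ?_ h x y z hgh hgx hgy hgz hhx hhy hhz
  intro x hx y hy z hz w hw
  exact del3_P4 f hf g x y z w hx hy hz hw

/-- additivity in the last variable -/
theorem ev4_mul_last (f : G → G → G → G → ℚ) (hf : ∀ x y z w v, del4 f x y z w v = 0)
    (g₁ g₂ g₃ x y : G) (h12 : Commute g₁ g₂) (h13 : Commute g₁ g₃) (h23 : Commute g₂ g₃)
    (h1x : Commute g₁ x) (h1y : Commute g₁ y) (h2x : Commute g₂ x) (h2y : Commute g₂ y)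
    (h3x : Commute g₃ x) (h3y : Commute g₃ y) :
    ev4 f g₁ g₂ g₃ (x * y) = ev4 f g₁ g₂ g₃ x + ev4 f g₁ g₂ g₃ y := by
  unfold ev4
  refine del1_P2 {k | Commute g₁ k ∧ Commute g₂ k} _ ?_ g₃ x y ⟨h13, h23⟩ ⟨h1x, h2x⟩ ⟨h1y, h2y⟩
    h3x h3y
  rintro x ⟨hx1, hx2⟩ y ⟨hy1, hy2⟩ z ⟨hz1, hz2⟩
  exact del2_PP f hf g₁ g₂ x y z h12 hx1 hy1 hz1 hx2 hy2 hz2

/-- the homotopy showing that inner automorphisms act trivially -/
theorem conj_homotopy (f : G → G → G → G → ℚ) (hf : ∀ x y z w v, del4 f x y z w v = 0)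
    (p x y z w : G) :
    f (p * x * p⁻¹) (p * y * p⁻¹) (p * z * p⁻¹) (p * w * p⁻¹) - f x y z w =
      del3 (fun x y z => f p⁻¹ (p * x * p⁻¹) (p * y * p⁻¹) (p * z * p⁻¹)
        - f x p⁻¹ (p * y * p⁻¹) (p * z * p⁻¹) + f x y p⁻¹ (p * z * p⁻¹) - f x y z p⁻¹) x y z w := by
  have h1 := hf p⁻¹ (p * x * p⁻¹) (p * y * p⁻¹) (p * z * p⁻¹) (p * w * p⁻¹)
  have h2 := hf x p⁻¹ (p * y * p⁻¹) (p * z * p⁻¹) (p * w * p⁻¹)
  have h3 := hf x y p⁻¹ (p * z * p⁻¹) (p * w * p⁻¹)
  have h4 := hf x y z p⁻¹ (p * w * p⁻¹)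
  have h5 := hf x y z w p⁻¹
  have e : ∀ a : G, p⁻¹ * (p * a * p⁻¹) = a * p⁻¹ := by intro a; group
  have e2 : ∀ a b : G, p * a * p⁻¹ * (p * b * p⁻¹) = p * (a * b) * p⁻¹ := by intro a b; group
  simp only [del4, e, e2] at h1 h2 h3 h4 h5
  simp only [del3]
  linarith

theorem ev4_conj (f : G → G → G → G → ℚ) (hf : ∀ x y z w v, del4 f x y z w v = 0)
    (p a b c d : G) (hab : Commute a b) (hac : Commute a c)
    (had : Commute a d) (hbc : Commute b c) (hbd : Commute b d) (hcd : Commute c d) :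
    ev4 f (p * a * p⁻¹) (p * b * p⁻¹) (p * c * p⁻¹) (p * d * p⁻¹) = ev4 f a b c d := by
  have h := ev4_del3 (fun x y z => f p⁻¹ (p * x * p⁻¹) (p * y * p⁻¹) (p * z * p⁻¹)
        - f x p⁻¹ (p * y * p⁻¹) (p * z * p⁻¹) + f x y p⁻¹ (p * z * p⁻¹) - f x y z p⁻¹)
        a b c d hab hac had hbc hbd hcd
  simp only [← conj_homotopy f hf p] at h
  rw [ev4_sub] at h
  have h' : ev4 (fun x y z w => f (p * x * p⁻¹) (p * y * p⁻¹) (p * z * p⁻¹) (p * w * p⁻¹)) a b c d
      = ev4 f (p * a * p⁻¹) (p * b * p⁻¹) (p * c * p⁻¹) (p * d * p⁻¹) := by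
    simp only [ev4, P2, P3, P4]
  rw [h'] at h
  linarith

end Cochain

end Pool.Agent.MP_fb66b8_al
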