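import Pool.Agent.MP_fb66b8_al.TreeCocycle

/-!
# MP_fb66b8_al: the Iwahori subgroup and the commensurated set for a discretely valued field
-/

set_option autoImplicit false

namespace Pool.Agent.MP_fb66b8_al

open Matrix

/-- A discrete valuation on a field, written additively, with a chosen uniformiser. -/
structure DVal (F : Type*) [Field F] where
  V : F → WithTop ℤ
  top_iff : ∀ x, V x = ⊤ ↔ x = 0
  mul' : ∀ x y, V (x * y) = V x + V y
  add' : ∀ x y, min (V x) (V y) ≤ V (x + y)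
  add_lt : ∀ x y, V x < V y → V (x + y) = V x
  t : Fˣ
  V_t : V t = ((1 : ℤ) : WithTop ℤ)

section Ineq

set_option linter.unusedSimpArgs false in
theorem ineq1 (a b c d : WithTop ℤ) :
    ((min b d ≤ min a c) ∧
      ¬ (min (b + ((-1 : ℤ) : WithTop ℤ)) d ≤ min (a + ((-1 : ℤ) : WithTop ℤ)) c)) ↔
      (a ≠ ⊤ ∧ d = a ∧ a < b ∧ a ≤ c) := by
  simp only [min_le_iff, le_min_iff, not_and_or, not_or, not_le]
  induction a using WithTop.recTopCoe <;> induction b using WithTop.recTopCoe <;>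
    induction c using WithTop.recTopCoe <;> induction d using WithTop.recTopCoe <;>
    (simp only [← WithTop.coe_add, WithTop.top_add, WithTop.add_top, WithTop.coe_le_coe,
      WithTop.coe_lt_coe, le_top, top_le_iff, WithTop.coe_ne_top, WithTop.top_ne_coe, not_top_lt,
      WithTop.coe_lt_top, ne_eq, not_true_eq_false, not_false_eq_true, and_true, true_and,
      and_false, false_and, or_false, or_true, false_or, true_or, WithTop.coe_eq_coe,
      lt_self_iff_false, le_refl, iff_false, iff_true, and_self, or_self, false_iff,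
      true_iff] <;> omega)

set_option linter.unusedSimpArgs false in
theorem ineq2 (a b c d : WithTop ℤ) :
    ((¬ (min b d ≤ min a c)) ∧
      (min (b + ((-1 : ℤ) : WithTop ℤ)) d ≤ min (a + ((-1 : ℤ) : WithTop ℤ)) c)) ↔
      (c ≠ ⊤ ∧ b + ((-1 : ℤ) : WithTop ℤ) = c ∧ c < d ∧ c ≤ a + ((-1 : ℤ) : WithTop ℤ)) := by
  simp only [min_le_iff, le_min_iff, not_and_or, not_or, not_le]
  induction a using WithTop.recTopCoe <;> induction b using WithTop.recTopCoe <;>
    induction c using WithTop.recTopCoe <;> induction d using WithTop.recTopCoe <;>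
    (simp only [← WithTop.coe_add, WithTop.top_add, WithTop.add_top, WithTop.coe_le_coe,
      WithTop.coe_lt_coe, le_top, top_le_iff, WithTop.coe_ne_top, WithTop.top_ne_coe, not_top_lt,
      WithTop.coe_lt_top, ne_eq, not_true_eq_false, not_false_eq_true, and_true, true_and,
      and_false, false_and, or_false, or_true, false_or, true_or, WithTop.coe_eq_coe,
      lt_self_iff_false, le_refl, iff_false, iff_true, and_self, or_self, false_iff,
      true_iff] <;> omega)

theorem wt_lt_add {a b c d : WithTop ℤ} (hc : c ≠ ⊤) (h : a < b) (h' : c ≤ d) :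
    a + c < b + d :=
  (WithTop.add_lt_add_right hc h).trans_le (by gcongr)

set_option linter.unusedSimpArgs false in
theorem wt_add_right (a b c : WithTop ℤ) (hc : c ≠ ⊤) : a + c ≤ b + c ↔ a ≤ b := by
  induction c using WithTop.recTopCoe
  · exact absurd rfl hc
  induction a using WithTop.recTopCoe <;> induction b using WithTop.recTopCoe <;> (simp only [← WithTop.coe_add, WithTop.top_add, WithTop.add_top, WithTop.coe_le_coe,
      WithTop.coe_lt_coe, le_top, top_le_iff, WithTop.coe_ne_top, WithTop.top_ne_coe, not_top_lt,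
      WithTop.coe_lt_top, ne_eq, not_true_eq_false, not_false_eq_true, and_true, true_and,
      and_false, false_and, or_false, or_true, false_or, true_or, WithTop.coe_eq_coe,
      lt_self_iff_false, le_refl, iff_false, iff_true, and_self, or_self, false_iff,
      true_iff] <;> omega)

theorem wt_min_add (a b c : WithTop ℤ) : min (a + c) (b + c) = min a b + c := by
  rcases le_total a b with h | h
  · rw [min_eq_left h, min_eq_left (by gcongr)]
  · rw [min_eq_right h, min_eq_right (by gcongr)]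

end Ineq

namespace DVal

variable {F : Type*} [Field F] (D : DVal F)

theorem V_ne_top {x : F} (hx : x ≠ 0) : D.V x ≠ ⊤ := fun h => hx ((D.top_iff x).1 h)

theorem V_zero : D.V 0 = ⊤ := (D.top_iff 0).2 rfl

theorem V_one : D.V 1 = ((0 : ℤ) : WithTop ℤ) := by
  have h := D.mul' 1 1
  rw [mul_one] at h
  have h2 := D.V_ne_top (one_ne_zero)
  revert h h2
  generalize D.V 1 = a
  induction a using WithTop.recTopCoe
  · intro _ h; exact absurd rfl h
  · intro h _
    rw [← WithTop.coe_add, WithTop.coe_eq_coe] at h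
    rw [WithTop.coe_eq_coe]
    omega

theorem V_neg_one : D.V (-1) = ((0 : ℤ) : WithTop ℤ) := by
  have h := D.mul' (-1) (-1)
  rw [neg_mul_neg, mul_one, D.V_one] at h
  have h2 := D.V_ne_top (neg_ne_zero.mpr one_ne_zero)
  revert h h2
  generalize D.V (-1) = a
  induction a using WithTop.recTopCoe
  · intro _ h; exact absurd rfl h
  · intro h _
    rw [← WithTop.coe_add, WithTop.coe_eq_coe] at h
    rw [WithTop.coe_eq_coe]
    omega

theorem V_neg (x : F) : D.V (-x) = D.V x := by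
  have h := D.mul' (-1) x
  rw [neg_one_mul, D.V_neg_one] at h
  rw [h]
  exact zero_add _

theorem V_inv {x : F} (hx : x ≠ 0) : D.V x + D.V x⁻¹ = ((0 : ℤ) : WithTop ℤ) := by
  rw [← D.mul', mul_inv_cancel₀ hx, D.V_one]

theorem V_tinv : D.V ((D.t⁻¹ : Fˣ) : F) = ((-1 : ℤ) : WithTop ℤ) := by
  have h := D.V_inv D.t.ne_zero
  rw [D.V_t] at h
  rw [Units.val_inv_eq_inv_val]
  revert h
  generalize D.V ((D.t : F)⁻¹) = a
  induction a using WithTop.recTopCoe
  · intro h; simp at h
  · intro h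
    rw [← WithTop.coe_add, WithTop.coe_eq_coe] at h
    rw [WithTop.coe_eq_coe]
    omega

theorem V_tpow (n : ℤ) : D.V ((D.t ^ n : Fˣ) : F) = (n : WithTop ℤ) := by
  induction n using Int.induction_on with
  | zero => rw [zpow_zero, Units.val_one, D.V_one]
  | succ m ih =>
    rw [_root_.zpow_add_one, Units.val_mul, D.mul', ih, D.V_t, ← WithTop.coe_add]
  | pred m ih =>
    rw [_root_.zpow_sub_one, Units.val_mul, D.mul', ih, D.V_tinv, ← WithTop.coe_add]
    congr 1

/-- the norm of a column -/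
def N (x y : F) : WithTop ℤ := min (D.V x) (D.V y)

theorem N_mul (x y c : F) : D.N (x * c) (y * c) = D.N x y + D.V c := by
  rw [N, D.mul', D.mul', wt_min_add]
  rfl

theorem N_add_ge (x y x' y' : F) : min (D.N x y) (D.N x' y') ≤ D.N (x + x') (y + y') := by
  refine le_min ?_ ?_
  · refine le_trans ?_ (D.add' x x')
    exact min_le_min (min_le_left _ _) (min_le_left _ _)
  · refine le_trans ?_ (D.add' y y')
    exact min_le_min (min_le_right _ _) (min_le_right _ _)

theorem N_add_lt (x y x' y' : F) (h : D.N x y < D.N x' y') :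
    D.N (x + x') (y + y') = D.N x y := by
  apply le_antisymm
  · rcases le_total (D.V x) (D.V y) with hxy | hxy
    · have h1 : D.N x y = D.V x := min_eq_left hxy
      rw [h1] at h ⊢
      have h2 : D.V x < D.V x' := lt_of_lt_of_le h (min_le_left _ _)
      refine le_trans (min_le_left _ _) ?_
      rw [D.add_lt _ _ h2]
    · have h1 : D.N x y = D.V y := min_eq_right hxy
      rw [h1] at h ⊢
      have h2 : D.V y < D.V y' := lt_of_lt_of_le h (min_le_right _ _)
      refine le_trans (min_le_right _ _) ?_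
      rw [D.add_lt _ _ h2]
  · refine le_trans ?_ (D.N_add_ge x y x' y')
    exact le_min le_rfl h.le

/-- the (extended) Iwahori subgroup -/
def memΓ (g : GeneralLinearGroup (Fin 2) F) : Prop :=
  g.val 0 0 ≠ 0 ∧ D.V (g.val 1 1) = D.V (g.val 0 0) ∧ D.V (g.val 0 0) < D.V (g.val 0 1) ∧
    D.V (g.val 0 0) ≤ D.V (g.val 1 0)

theorem mul_entry (g h : GeneralLinearGroup (Fin 2) F) (i j : Fin 2) :
    (g * h).val i j = g.val i 0 * h.val 0 j + g.val i 1 * h.val 1 j := by
  rw [Units.val_mul, Matrix.mul_apply, Fin.sum_univ_two]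

theorem memΓ_mul (g h : GeneralLinearGroup (Fin 2) F) (hg : D.memΓ g) (hh : D.memΓ h) :
    D.memΓ (g * h) ∧ D.V ((g * h).val 0 0) = D.V (g.val 0 0 * h.val 0 0) := by
  obtain ⟨g0, g1, g2, g3⟩ := hg
  obtain ⟨h0, h1, h2, h3⟩ := hh
  have gt := D.V_ne_top g0
  have ht := D.V_ne_top h0
  have e00 : D.V ((g * h).val 0 0) = D.V (g.val 0 0 * h.val 0 0) := by
    rw [mul_entry]
    apply D.add_lt
    rw [D.mul', D.mul']
    exact wt_lt_add ht g2 h3
  have e11 : D.V ((g * h).val 1 1) = D.V (g.val 0 0 * h.val 0 0) := by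
    rw [mul_entry, add_comm]
    rw [D.add_lt]
    · rw [D.mul', D.mul', g1, h1]
    · rw [D.mul', D.mul', g1, h1, add_comm (D.V (g.val 0 0)), add_comm (D.V (g.val 1 0))]
      exact wt_lt_add gt h2 g3
  refine ⟨⟨?_, ?_, ?_, ?_⟩, e00⟩
  · intro hz
    rw [hz, D.V_zero] at e00
    exact mul_ne_zero g0 h0 ((D.top_iff _).1 e00.symm)
  · rw [e11, e00]
  · rw [e00, mul_entry]
    refine lt_of_lt_of_le (lt_min ?_ ?_) (D.add' _ _)
    · rw [D.mul', D.mul', add_comm (D.V (g.val 0 0)), add_comm (D.V (g.val 0 0))]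
      exact wt_lt_add gt h2 le_rfl
    · rw [D.mul', D.mul', h1]
      exact wt_lt_add ht g2 le_rfl
  · rw [e00, mul_entry]
    refine le_trans (le_min ?_ ?_) (D.add' _ _)
    · rw [D.mul', D.mul']
      gcongr
    · rw [D.mul', D.mul', g1]
      gcongr

theorem det_eq (g : GeneralLinearGroup (Fin 2) F) :
    g.val.det = g.val 0 0 * g.val 1 1 - g.val 0 1 * g.val 1 0 := Matrix.det_fin_two _

theorem det_ne (g : GeneralLinearGroup (Fin 2) F) : g.val.det ≠ 0 := by
  have h : IsUnit g.val.det := (Matrix.isUnit_iff_isUnit_det _).1 g.isUnit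
  exact h.ne_zero

theorem inv_entry (g : GeneralLinearGroup (Fin 2) F) :
    (g⁻¹).val = !![g.val 1 1 * g.val.det⁻¹, -g.val 0 1 * g.val.det⁻¹;
      -g.val 1 0 * g.val.det⁻¹, g.val 0 0 * g.val.det⁻¹] := by
  rw [Matrix.coe_units_inv, Matrix.inv_def, Ring.inverse_eq_inv', Matrix.adjugate_fin_two]
  ext i j
  fin_cases i <;> fin_cases j <;> simp [mul_comm]

theorem memΓ_inv (g : GeneralLinearGroup (Fin 2) F) (hg : D.memΓ g) : D.memΓ g⁻¹ := by
  obtain ⟨g0, g1, g2, g3⟩ := hg
  have gt := D.V_ne_top g0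
  have hdet := det_ne g
  have hdt := D.V_ne_top (inv_ne_zero hdet)
  have g11 : g.val 1 1 ≠ 0 := by
    intro h
    rw [h, D.V_zero] at g1
    exact gt g1.symm
  have e00 : (g⁻¹).val 0 0 = g.val 1 1 * g.val.det⁻¹ := by rw [inv_entry]; rfl
  have e01 : (g⁻¹).val 0 1 = -g.val 0 1 * g.val.det⁻¹ := by rw [inv_entry]; rfl
  have e10 : (g⁻¹).val 1 0 = -g.val 1 0 * g.val.det⁻¹ := by rw [inv_entry]; rfl
  have e11 : (g⁻¹).val 1 1 = g.val 0 0 * g.val.det⁻¹ := by rw [inv_entry]; rfl
  refine ⟨?_, ?_, ?_, ?_⟩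
  · rw [e00]
    exact mul_ne_zero g11 (inv_ne_zero hdet)
  · rw [e11, e00, D.mul', D.mul', g1]
  · rw [e00, e01, D.mul', D.mul', D.V_neg, g1]
    exact wt_lt_add hdt g2 le_rfl
  · rw [e00, e10, D.mul', D.mul', D.V_neg, g1]
    gcongr

/-- the (extended) Iwahori subgroup -/
def Γ : Subgroup (GeneralLinearGroup (Fin 2) F) where
  carrier := {g | D.memΓ g}
  mul_mem' := fun {g h} hg hh => (D.memΓ_mul g h hg hh).1
  one_mem' := by
    refine ⟨?_, ?_, ?_, ?_⟩
    · simp
    · simp
    · simp only [Units.val_one, Matrix.one_apply_eq]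
      rw [D.V_one, Matrix.one_apply_ne (by decide), D.V_zero]
      exact WithTop.coe_lt_top _
    · simp only [Units.val_one, Matrix.one_apply_eq]
      rw [D.V_one, Matrix.one_apply_ne (by decide), D.V_zero]
      exact le_top
  inv_mem' := fun {g} hg => D.memΓ_inv g hg

theorem mem_Γ_iff (g : GeneralLinearGroup (Fin 2) F) : g ∈ D.Γ ↔ D.memΓ g := Iff.rfl

/-- norm of a column of `g` -/
def nc (g : GeneralLinearGroup (Fin 2) F) (j : Fin 2) : WithTop ℤ := D.N (g.val 0 j) (g.val 1 j)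

theorem nc_ne_top (g : GeneralLinearGroup (Fin 2) F) (j : Fin 2) : D.nc g j ≠ ⊤ := by
  intro h
  rw [nc, N] at h
  have h0 : D.V (g.val 0 j) = ⊤ := by
    have := min_le_left (D.V (g.val 0 j)) (D.V (g.val 1 j))
    rw [h] at this
    exact top_le_iff.1 this
  have h1 : D.V (g.val 1 j) = ⊤ := by
    have := min_le_right (D.V (g.val 0 j)) (D.V (g.val 1 j))
    rw [h] at this
    exact top_le_iff.1 this
  rw [D.top_iff] at h0 h1
  apply det_ne g
  rw [det_eq]
  fin_cases j
  · simp only [Fin.zero_eta] at h0 h1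
    rw [h0, h1]; ring
  · simp only [Fin.mk_one] at h0 h1
    rw [h0, h1]; ring

/-- the half tree, on group elements -/
def inA (g : GeneralLinearGroup (Fin 2) F) : Prop := D.nc g 1 ≤ D.nc g 0

theorem inA_mul_imp (g γ : GeneralLinearGroup (Fin 2) F) (hγ : D.memΓ γ) :
    (D.inA g → D.inA (g * γ)) ∧ (¬ D.inA g → ¬ D.inA (g * γ)) := by
  obtain ⟨g0, g1, g2, g3⟩ := hγ
  have gt := D.V_ne_top g0
  have c0 : D.nc (g * γ) 0 = D.N (g.val 0 0 * γ.val 0 0 + g.val 0 1 * γ.val 1 0)
      (g.val 1 0 * γ.val 0 0 + g.val 1 1 * γ.val 1 0) := by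
    rw [nc, mul_entry, mul_entry]
  have c1 : D.nc (g * γ) 1 = D.N (g.val 0 0 * γ.val 0 1 + g.val 0 1 * γ.val 1 1)
      (g.val 1 0 * γ.val 0 1 + g.val 1 1 * γ.val 1 1) := by
    rw [nc, mul_entry, mul_entry]
  constructor
  · intro h
    unfold inA at h ⊢
    have hlt : D.N (g.val 0 1 * γ.val 1 1) (g.val 1 1 * γ.val 1 1) <
        D.N (g.val 0 0 * γ.val 0 1) (g.val 1 0 * γ.val 0 1) := by
      rw [D.N_mul, D.N_mul, g1, add_comm (D.N (g.val 0 1) _), add_comm (D.N (g.val 0 0) _)]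
      exact wt_lt_add (D.nc_ne_top g 1) g2 h
    have hc1 : D.nc (g * γ) 1 = D.nc g 1 + D.V (γ.val 0 0) := by
      rw [c1, add_comm (g.val 0 0 * γ.val 0 1), add_comm (g.val 1 0 * γ.val 0 1),
        D.N_add_lt _ _ _ _ hlt, D.N_mul, g1]
      rfl
    rw [hc1, c0]
    refine le_trans (le_min ?_ ?_) (D.N_add_ge _ _ _ _)
    · rw [D.N_mul]
      have : D.N (g.val 0 0) (g.val 1 0) = D.nc g 0 := rfl
      rw [this]
      gcongr
    · rw [D.N_mul]
      have : D.N (g.val 0 1) (g.val 1 1) = D.nc g 1 := rfl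
      rw [this]
      gcongr
  · intro h
    unfold inA at h ⊢
    rw [not_le] at h ⊢
    have hlt : D.N (g.val 0 0 * γ.val 0 0) (g.val 1 0 * γ.val 0 0) <
        D.N (g.val 0 1 * γ.val 1 0) (g.val 1 1 * γ.val 1 0) := by
      rw [D.N_mul, D.N_mul]
      exact wt_lt_add gt h g3
    have hc0 : D.nc (g * γ) 0 = D.nc g 0 + D.V (γ.val 0 0) := by
      rw [c0, D.N_add_lt _ _ _ _ hlt, D.N_mul]
      rfl
    rw [hc0, c1]
    refine lt_of_lt_of_le (lt_min ?_ ?_) (D.N_add_ge _ _ _ _)
    · rw [D.N_mul]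
      have : D.N (g.val 0 0) (g.val 1 0) = D.nc g 0 := rfl
      rw [this, add_comm, add_comm (D.nc g 0)]
      exact wt_lt_add (D.nc_ne_top g 0) g2 le_rfl
    · rw [D.N_mul, g1]
      have : D.N (g.val 0 1) (g.val 1 1) = D.nc g 1 := rfl
      rw [this]
      exact wt_lt_add gt h le_rfl

theorem inA_mul (g γ : GeneralLinearGroup (Fin 2) F) (hγ : γ ∈ D.Γ) :
    D.inA (g * γ) ↔ D.inA g := by
  have h := D.inA_mul_imp g γ hγ
  constructor
  · intro h1
    by_contra h2
    exact h.2 h2 h1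
  · exact h.1

/-- the half tree, on cosets -/
def A : Set (GeneralLinearGroup (Fin 2) F ⧸ D.Γ) := {e | D.inA (Quotient.out e)}

theorem mem_A (g : GeneralLinearGroup (Fin 2) F) :
    ((g : GeneralLinearGroup (Fin 2) F ⧸ D.Γ) ∈ D.A) ↔ D.inA g := by
  have h : ((g : GeneralLinearGroup (Fin 2) F) : GeneralLinearGroup (Fin 2) F ⧸ D.Γ) =
      ((Quotient.out (g : GeneralLinearGroup (Fin 2) F ⧸ D.Γ) : GeneralLinearGroup (Fin 2) F) :
        GeneralLinearGroup (Fin 2) F ⧸ D.Γ) := by
    rw [QuotientGroup.out_eq']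
  have h2 := QuotientGroup.eq.mp h
  have h3 := D.inA_mul g _ h2
  rw [mul_inv_cancel_left] at h3
  exact h3

/-- diagonal matrices -/
def dgl (a b : Fˣ) : GeneralLinearGroup (Fin 2) F where
  val := !![(a : F), 0; 0, (b : F)]
  inv := !![((a⁻¹ : Fˣ) : F), 0; 0, ((b⁻¹ : Fˣ) : F)]
  val_inv := by
    rw [Matrix.mul_fin_two, Matrix.one_fin_two]
    simp
  inv_val := by
    rw [Matrix.mul_fin_two, Matrix.one_fin_two]
    simp

/-- upper unipotent matrices -/
def up (c : F) : GeneralLinearGroup (Fin 2) F where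
  val := !![1, c; 0, 1]
  inv := !![1, -c; 0, 1]
  val_inv := by
    rw [Matrix.mul_fin_two, Matrix.one_fin_two]
    simp
  inv_val := by
    rw [Matrix.mul_fin_two, Matrix.one_fin_two]
    simp

/-- lower unipotent matrices -/
def lo (c : F) : GeneralLinearGroup (Fin 2) F where
  val := !![1, 0; c, 1]
  inv := !![1, 0; -c, 1]
  val_inv := by
    rw [Matrix.mul_fin_two, Matrix.one_fin_two]
    simp
  inv_val := by
    rw [Matrix.mul_fin_two, Matrix.one_fin_two]
    simp

theorem dgl_mul (a b c d : Fˣ) : dgl a b * dgl c d = dgl (a * c) (b * d) := by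
  apply Units.ext
  change !![(a : F), 0; 0, (b : F)] * !![(c : F), 0; 0, (d : F)] = !![_, 0; 0, _]
  rw [Matrix.mul_fin_two]
  simp

theorem up_conj (c : F) (a : Fˣ) : dgl a 1 * up c * (dgl a 1)⁻¹ = up (a * c) := by
  rw [mul_inv_eq_iff_eq_mul]
  apply Units.ext
  change !![(a : F), 0; 0, ((1 : Fˣ) : F)] * !![1, c; 0, 1] =
    !![1, (a : F) * c; 0, 1] * !![(a : F), 0; 0, ((1 : Fˣ) : F)]
  rw [Matrix.mul_fin_two, Matrix.mul_fin_two]
  simp

theorem lo_conj (c : F) (a : Fˣ) : dgl 1 a * lo c * (dgl 1 a)⁻¹ = lo (a * c) := by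
  rw [mul_inv_eq_iff_eq_mul]
  apply Units.ext
  change !![((1 : Fˣ) : F), 0; 0, (a : F)] * !![1, 0; c, 1] =
    !![1, 0; (a : F) * c, 1] * !![((1 : Fˣ) : F), 0; 0, (a : F)]
  rw [Matrix.mul_fin_two, Matrix.mul_fin_two]
  simp

/-- Elementary generation of `GL₂` of a field. -/
theorem mem_of_gen (H : Subgroup (GeneralLinearGroup (Fin 2) F))
    (hd : ∀ a b : Fˣ, dgl a b ∈ H) (hu : ∀ c : F, up c ∈ H) (hl : ∀ c : F, lo c ∈ H)
    (g : GeneralLinearGroup (Fin 2) F) : g ∈ H := by
  have main : ∀ g : GeneralLinearGroup (Fin 2) F, g.val 0 0 ≠ 0 → g ∈ H := by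
    intro g hp
    have hdet := det_ne g
    rw [det_eq] at hdet
    set p := g.val 0 0 with hp'
    set q := g.val 0 1 with hq'
    set r := g.val 1 0 with hr'
    set s := g.val 1 1 with hs'
    have hd2 : (p * s - q * r) / p ≠ 0 := div_ne_zero hdet hp
    have e : g = lo (r / p) * dgl (Units.mk0 p hp) (Units.mk0 _ hd2) * up (q / p) := by
      apply Units.ext
      change g.val = !![1, 0; r / p, 1] * !![p, 0; 0, (p * s - q * r) / p] * !![1, q / p; 0, 1]
      rw [Matrix.mul_fin_two, Matrix.mul_fin_two, Matrix.eta_fin_two g.val]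
      rw [← hp', ← hq', ← hr', ← hs']
      ext i j
      fin_cases i <;> fin_cases j <;> simp <;> field_simp <;> ring
    rw [e]
    exact H.mul_mem (H.mul_mem (hl _) (hd _ _)) (hu _)
  by_cases hp : g.val 0 0 = 0
  · have hr : g.val 1 0 ≠ 0 := by
      intro hr
      apply det_ne g
      rw [det_eq, hp, hr]
      ring
    have h1 : up 1 * g ∈ H := by
      apply main
      rw [mul_entry]
      change (1 : F) * g.val 0 0 + 1 * g.val 1 0 ≠ 0
      rw [hp]
      simpa using hr
    have h2 := H.mul_mem (H.inv_mem (hu 1)) h1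
    rwa [inv_mul_cancel_left] at h2
  · exact main g hp

/-- `g` changes column norms by a constant -/
theorem cc_zero_of_sim (g : GeneralLinearGroup (Fin 2) F) (c : WithTop ℤ) (hc : c ≠ ⊤)
    (h : ∀ x y : F, D.N (g.val 0 0 * x + g.val 0 1 * y) (g.val 1 0 * x + g.val 1 1 * y) =
      D.N x y + c) (e : GeneralLinearGroup (Fin 2) F ⧸ D.Γ) : cc D.A g e = 0 := by
  obtain ⟨k, rfl⟩ := QuotientGroup.mk_surjective e
  have h1 : D.inA (g * (g⁻¹ * k)) ↔ D.inA (g⁻¹ * k) := by
    unfold inA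
    have h2 : ∀ (k' : GeneralLinearGroup (Fin 2) F) (j : Fin 2),
        D.nc (g * k') j = D.nc k' j + c := by
      intro k' j
      rw [nc, mul_entry, mul_entry, h]
      rfl
    rw [h2, h2, wt_add_right _ _ _ hc]
  rw [mul_inv_cancel_left] at h1
  have h3 : (k : GeneralLinearGroup (Fin 2) F ⧸ D.Γ) ∈ D.A ↔
      (g⁻¹ • (k : GeneralLinearGroup (Fin 2) F ⧸ D.Γ)) ∈ D.A := by
    have : (g⁻¹ • (k : GeneralLinearGroup (Fin 2) F ⧸ D.Γ)) =
      ((g⁻¹ * k : GeneralLinearGroup (Fin 2) F) : GeneralLinearGroup (Fin 2) F ⧸ D.Γ) := rfl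
    rw [this, D.mem_A, D.mem_A, h1]
  rw [cc]
  by_cases hk : (k : GeneralLinearGroup (Fin 2) F ⧸ D.Γ) ∈ D.A
  · rw [Set.indicator_of_mem hk, Set.indicator_of_mem (h3.1 hk)]; ring
  · rw [Set.indicator_of_notMem hk, Set.indicator_of_notMem (fun h => hk (h3.2 h))]; ring

theorem cc_dgl (a b : Fˣ) (hab : D.V a = D.V b) (e : GeneralLinearGroup (Fin 2) F ⧸ D.Γ) :
    cc D.A (dgl a b) e = 0 := by
  refine D.cc_zero_of_sim (dgl a b) (D.V a) (D.V_ne_top a.ne_zero) ?_ e
  intro x y
  change D.N ((a : F) * x + 0 * y) (0 * x + (b : F) * y) = _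
  rw [zero_mul, zero_mul, add_zero, zero_add, N, D.mul', D.mul', ← hab, add_comm (D.V a),
    add_comm (D.V a), wt_min_add]
  rfl

theorem cc_up (e : GeneralLinearGroup (Fin 2) F ⧸ D.Γ) : cc D.A (up 1) e = 0 := by
  refine D.cc_zero_of_sim (up 1) ((0 : ℤ) : WithTop ℤ) (WithTop.coe_ne_top) ?_ e
  intro x y
  change D.N (1 * x + 1 * y) (0 * x + 1 * y) = _
  rw [one_mul, one_mul, zero_mul, zero_add]
  have h1 : ∀ x y : F, D.N x y ≤ D.N (x + y) y := by
    intro x y
    exact le_min (D.add' x y) (min_le_right _ _)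
  apply le_antisymm
  · have h2 := h1 (x + y) (-y)
    have h3 : D.N (x + y) (-y) = D.N (x + y) y := by rw [N, D.V_neg]; rfl
    have h4 : D.N (x + y + -y) (-y) = D.N x y := by
      rw [N, D.V_neg, add_neg_cancel_right]; rfl
    rw [h3, h4] at h2
    refine h2.trans ?_
    exact (add_zero _).ge
  · refine le_trans ?_ (h1 x y)
    exact (add_zero _).le

theorem cc_lo (e : GeneralLinearGroup (Fin 2) F ⧸ D.Γ) : cc D.A (lo 1) e = 0 := by
  refine D.cc_zero_of_sim (lo 1) ((0 : ℤ) : WithTop ℤ) (WithTop.coe_ne_top) ?_ e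
  intro x y
  change D.N (1 * x + 0 * y) (1 * x + 1 * y) = _
  rw [one_mul, one_mul, zero_mul, add_zero]
  have h1 : ∀ x y : F, D.N x y ≤ D.N x (x + y) := by
    intro x y
    exact le_min (min_le_left _ _) (D.add' x y)
  apply le_antisymm
  · have h2 := h1 (-x) (x + y)
    have h3 : D.N (-x) (x + y) = D.N x (x + y) := by rw [N, D.V_neg]; rfl
    have h4 : D.N (-x) (-x + (x + y)) = D.N x y := by
      rw [N, D.V_neg, neg_add_cancel_left]; rfl
    rw [h3, h4] at h2
    refine h2.trans ?_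
    exact (add_zero _).ge
  · refine le_trans ?_ (h1 x y)
    exact (add_zero _).le

/-- the element `(0 t; 1 0)` -/
def wgl : GeneralLinearGroup (Fin 2) F where
  val := !![0, (D.t : F); 1, 0]
  inv := !![0, 1; ((D.t⁻¹ : Fˣ) : F), 0]
  val_inv := by
    rw [Matrix.mul_fin_two, Matrix.one_fin_two]
    simp
  inv_val := by
    rw [Matrix.mul_fin_two, Matrix.one_fin_two]
    simp

open Classical in
/-- the cocycle of the half tree on `diag(t,1)` -/
theorem cc_t (e : GeneralLinearGroup (Fin 2) F ⧸ D.Γ) :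
    cc D.A (dgl D.t 1) e =
      (if e = ((1 : GeneralLinearGroup (Fin 2) F) : GeneralLinearGroup (Fin 2) F ⧸ D.Γ)
        then 1 else 0) -
      (if e = ((D.wgl : GeneralLinearGroup (Fin 2) F) : GeneralLinearGroup (Fin 2) F ⧸ D.Γ)
        then 1 else 0) := by
  obtain ⟨g, rfl⟩ := QuotientGroup.mk_surjective e
  have hsm : ((dgl D.t 1)⁻¹ • (g : GeneralLinearGroup (Fin 2) F ⧸ D.Γ)) =
      (((dgl D.t 1)⁻¹ * g : GeneralLinearGroup (Fin 2) F) :
        GeneralLinearGroup (Fin 2) F ⧸ D.Γ) := rfl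
  have e00 : ∀ j, ((dgl D.t 1)⁻¹ * g).val 0 j = ((D.t⁻¹ : Fˣ) : F) * g.val 0 j := by
    intro j
    rw [mul_entry]
    change ((D.t⁻¹ : Fˣ) : F) * g.val 0 j + 0 * g.val 1 j = _
    ring
  have e11 : ∀ j, ((dgl D.t 1)⁻¹ * g).val 1 j = g.val 1 j := by
    intro j
    rw [mul_entry]
    change 0 * g.val 0 j + ((1⁻¹ : Fˣ) : F) * g.val 1 j = _
    simp
  have hA2 : D.inA ((dgl D.t 1)⁻¹ * g) ↔
      min (D.V (g.val 0 1) + ((-1 : ℤ) : WithTop ℤ)) (D.V (g.val 1 1)) ≤
        min (D.V (g.val 0 0) + ((-1 : ℤ) : WithTop ℤ)) (D.V (g.val 1 0)) := by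
    unfold inA nc N
    rw [e00, e00, e11, e11, D.mul', D.mul', D.V_tinv, add_comm (((-1 : ℤ) : WithTop ℤ)),
      add_comm (((-1 : ℤ) : WithTop ℤ))]
  have hA1 : D.inA g ↔ min (D.V (g.val 0 1)) (D.V (g.val 1 1)) ≤
      min (D.V (g.val 0 0)) (D.V (g.val 1 0)) := Iff.rfl
  have hE1 : (g : GeneralLinearGroup (Fin 2) F ⧸ D.Γ) =
      ((1 : GeneralLinearGroup (Fin 2) F) : GeneralLinearGroup (Fin 2) F ⧸ D.Γ) ↔
      (D.inA g ∧ ¬ D.inA ((dgl D.t 1)⁻¹ * g)) := by
    rw [eq_comm, QuotientGroup.eq, inv_one, one_mul, D.mem_Γ_iff, hA2, hA1, ineq1]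
    unfold memΓ
    rw [Ne, Ne, D.top_iff]
  have hE2 : (g : GeneralLinearGroup (Fin 2) F ⧸ D.Γ) =
      ((D.wgl : GeneralLinearGroup (Fin 2) F) : GeneralLinearGroup (Fin 2) F ⧸ D.Γ) ↔
      (¬ D.inA g ∧ D.inA ((dgl D.t 1)⁻¹ * g)) := by
    rw [eq_comm, QuotientGroup.eq, D.mem_Γ_iff, hA2, hA1, ineq2]
    unfold memΓ
    have w0 : ∀ j, (D.wgl⁻¹ * g).val 0 j = g.val 1 j := by
      intro j
      rw [mul_entry]
      change 0 * g.val 0 j + 1 * g.val 1 j = _
      ring
    have w1 : ∀ j, (D.wgl⁻¹ * g).val 1 j = ((D.t⁻¹ : Fˣ) : F) * g.val 0 j := by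
      intro j
      rw [mul_entry]
      change ((D.t⁻¹ : Fˣ) : F) * g.val 0 j + 0 * g.val 1 j = _
      ring
    rw [w0, w0, w1, w1, D.mul', D.mul', D.V_tinv, add_comm (((-1 : ℤ) : WithTop ℤ)),
      add_comm (((-1 : ℤ) : WithTop ℤ)), Ne, Ne, D.top_iff]
  rw [cc, hsm]
  by_cases h1 : D.inA g <;> by_cases h2 : D.inA ((dgl D.t 1)⁻¹ * g)
  · rw [Set.indicator_of_mem ((D.mem_A _).2 h1), Set.indicator_of_mem ((D.mem_A _).2 h2),
      if_neg (by rw [hE1]; tauto), if_neg (by rw [hE2]; tauto)]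
    ring
  · rw [Set.indicator_of_mem ((D.mem_A _).2 h1),
      Set.indicator_of_notMem (fun h => h2 ((D.mem_A _).1 h)),
      if_pos (by rw [hE1]; tauto), if_neg (by rw [hE2]; tauto)]
  · rw [Set.indicator_of_notMem (fun h => h1 ((D.mem_A _).1 h)),
      Set.indicator_of_mem ((D.mem_A _).2 h2),
      if_neg (by rw [hE1]; tauto), if_pos (by rw [hE2]; tauto)]
  · rw [Set.indicator_of_notMem (fun h => h1 ((D.mem_A _).1 h)),
      Set.indicator_of_notMem (fun h => h2 ((D.mem_A _).1 h)),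
      if_neg (by rw [hE1]; tauto), if_neg (by rw [hE2]; tauto)]

/-- every element of `GL₂(F)` commensurates the half tree -/
theorem commens : Commens D.A := by
  intro g
  change g ∈ commSub D.A
  have hzero : ∀ k : GeneralLinearGroup (Fin 2) F, (∀ e, cc D.A k e = 0) → k ∈ commSub D.A := by
    intro k hk
    change (Function.support (cc D.A k)).Finite
    have : Function.support (cc D.A k) = ∅ := by
      ext e; simp [hk]
    rw [this]; exact Set.finite_empty
  have ht : dgl D.t 1 ∈ commSub D.A := by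
    change (Function.support (cc D.A (dgl D.t 1))).Finite
    refine ((Set.finite_singleton
      ((1 : GeneralLinearGroup (Fin 2) F) : GeneralLinearGroup (Fin 2) F ⧸ D.Γ)).union
      (Set.finite_singleton
        ((D.wgl : GeneralLinearGroup (Fin 2) F) : GeneralLinearGroup (Fin 2) F ⧸ D.Γ))).subset ?_
    intro e he
    by_contra hne
    simp only [Set.union_singleton, Set.mem_insert_iff, Set.mem_singleton_iff, not_or] at hne
    apply he
    rw [D.cc_t, if_neg hne.2, if_neg hne.1]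
    ring
  have hK : ∀ a b : Fˣ, D.V a = D.V b → dgl a b ∈ commSub D.A :=
    fun a b hab => hzero _ (D.cc_dgl a b hab)
  have hd1 : ∀ a : Fˣ, dgl a 1 ∈ commSub D.A := by
    intro a
    have htz : ∀ n : ℤ, dgl (D.t ^ n) 1 ∈ commSub D.A := by
      intro n
      have hpow : ∀ n : ℤ, dgl (D.t ^ n) 1 = (dgl D.t 1) ^ n := by
        intro n
        induction n using Int.induction_on with
        | zero =>
          rw [zpow_zero, zpow_zero]
          apply Units.ext
          change !![((1 : Fˣ) : F), 0; 0, ((1 : Fˣ) : F)] = 1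
          rw [Matrix.one_fin_two]
          simp
        | succ m ih =>
          rw [_root_.zpow_add_one, _root_.zpow_add_one, ← ih, dgl_mul, mul_one]
        | pred m ih =>
          rw [_root_.zpow_sub_one, _root_.zpow_sub_one, ← ih, eq_mul_inv_iff_mul_eq, dgl_mul,
            inv_mul_cancel_right, mul_one]
      rw [hpow]
      exact (commSub D.A).zpow_mem ht n
    obtain ⟨n, hn⟩ : ∃ n : ℤ, D.V a = (n : WithTop ℤ) := by
      have h := D.V_ne_top a.ne_zero
      exact ⟨(D.V a).untop h, (WithTop.coe_untop _ h).symm⟩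
    have hu : D.V ((D.t ^ (-n) * a : Fˣ) : F) = D.V ((1 : Fˣ) : F) := by
      rw [Units.val_mul, D.mul', D.V_tpow, hn, Units.val_one, D.V_one, ← WithTop.coe_add]
      congr 1
      omega
    have h1 := (commSub D.A).mul_mem (htz n) (hK (D.t ^ (-n) * a) 1 hu)
    rw [dgl_mul, ← mul_assoc, ← _root_.zpow_add, add_neg_cancel, zpow_zero, one_mul, mul_one] at h1
    exact h1
  have hd : ∀ a b : Fˣ, dgl a b ∈ commSub D.A := by
    intro a b
    have h1 := (commSub D.A).mul_mem (hd1 (a * b⁻¹)) (hK b b rfl)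
    rw [dgl_mul, inv_mul_cancel_right, one_mul] at h1
    exact h1
  refine mem_of_gen (commSub D.A) hd ?_ ?_ g
  · intro c
    by_cases hc : c = 0
    · subst hc
      have h0 : up (0 : F) = 1 := by
        apply Units.ext
        change !![(1 : F), 0; 0, 1] = 1
        rw [Matrix.one_fin_two]
      rw [h0]
      exact Subgroup.one_mem _
    · have h1 := (commSub D.A).mul_mem ((commSub D.A).mul_mem (hd (Units.mk0 c hc) 1)
        (hzero _ D.cc_up)) ((commSub D.A).inv_mem (hd (Units.mk0 c hc) 1))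
      rw [up_conj, mul_one] at h1
      exact h1
  · intro c
    by_cases hc : c = 0
    · subst hc
      have h0 : lo (0 : F) = 1 := by
        apply Units.ext
        change !![(1 : F), 0; 0, 1] = 1
        rw [Matrix.one_fin_two]
      rw [h0]
      exact Subgroup.one_mem _
    · have h1 := (commSub D.A).mul_mem ((commSub D.A).mul_mem (hd 1 (Units.mk0 c hc))
        (hzero _ D.cc_lo)) ((commSub D.A).inv_mem (hd 1 (Units.mk0 c hc)))
      rw [lo_conj, mul_one] at h1
      exact h1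

end DVal

end Pool.Agent.MP_fb66b8_al
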