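import Pool.Agent.MP_fb66b8_al.Torus

/-!
# MP_fb66b8_al: the class vanishes in `H₄(GL₃(F);ℚ)`
-/

set_option autoImplicit false

namespace Pool.Agent.MP_fb66b8_al

open Matrix

section Combo

variable {A : Type*} [CommGroup A]

/-- coordinate element of the torus -/
def ee (i : Fin 3) (x : A) : Fin 3 → A := Pi.mulSingle i x

/-- the torus element `(x, x⁻¹, 1)` -/
def alA (x : A) : Fin 3 → A := ![x, x⁻¹, 1]

/-- the torus element `(x, x, x⁻²)` -/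
def beA (x : A) : Fin 3 → A := ![x, x, x⁻¹ * x⁻¹]

theorem alA_eq (x : A) : alA x * ee 1 x = ee 0 x := by
  funext i
  fin_cases i <;> simp [alA, ee, Pi.mulSingle, Function.update]

theorem beA_eq (x : A) : beA x * (ee 2 x * ee 2 x) = ee 0 x * ee 1 x := by
  funext i
  fin_cases i <;> simp [beA, ee, Pi.mulSingle, Function.update]

theorem ee_comp (σ : Equiv.Perm (Fin 3)) (i : Fin 3) (x : A) :
    ee i x ∘ σ.symm = ee (σ i) x := by
  funext j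
  simp only [ee, Function.comp_apply, Pi.mulSingle, Function.update_apply, Pi.one_apply]
  by_cases h : σ.symm j = i
  · rw [if_pos h, if_pos]
    rw [← h]; simp
  · rw [if_neg h, if_neg]
    intro h2
    apply h
    rw [h2]; simp

theorem phi_al (φ : (Fin 3 → A) → ℚ) (hφ : ∀ x y, φ (x * y) = φ x + φ y) (x : A) :
    φ (alA x) = φ (ee 0 x) - φ (ee 1 x) := by
  have h := hφ (alA x) (ee 1 x)
  rw [alA_eq] at h
  linarith

theorem phi_be (φ : (Fin 3 → A) → ℚ) (hφ : ∀ x y, φ (x * y) = φ x + φ y) (x : A) :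
    φ (beA x) = φ (ee 0 x) + φ (ee 1 x) - 2 * φ (ee 2 x) := by
  have h := hφ (beA x) (ee 2 x * ee 2 x)
  rw [beA_eq, hφ, hφ] at h
  linarith

set_option linter.unusedSimpArgs false in
/-- The `S₃`-coinvariant computation. -/
theorem combo (L : (Fin 3 → A) → (Fin 3 → A) → (Fin 3 → A) → (Fin 3 → A) → ℚ)
    (h1 : ∀ x y X Y Z, L (x * y) X Y Z = L x X Y Z + L y X Y Z)
    (h2 : ∀ x y X Y Z, L X (x * y) Y Z = L X x Y Z + L X y Y Z)
    (h3 : ∀ x y X Y Z, L X Y (x * y) Z = L X Y x Z + L X Y y Z)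
    (h4 : ∀ x y X Y Z, L X Y Z (x * y) = L X Y Z x + L X Y Z y)
    (hp : ∀ (σ : Equiv.Perm (Fin 3)) X Y Z W,
      L (X ∘ σ) (Y ∘ σ) (Z ∘ σ) (W ∘ σ) = L X Y Z W)
    (t a b c : A)
    (r1 : L (beA t) (alA a) (alA b) (beA c) = 0)
    (r2 : L (beA t) (beA a) (alA b) (alA c) = 0)
    (r3 : L (beA t) (alA a) (beA b) (alA c) = 0) :
    L (ee 0 t) (alA a) (alA b) (alA c) = 0 := by
  set m : Fin 3 → Fin 3 → Fin 3 → Fin 3 → ℚ :=
    fun i j k l => L (ee i t) (ee j a) (ee k b) (ee l c) with hm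
  have hperm : ∀ (σ : Equiv.Perm (Fin 3)) (i j k l : Fin 3),
      m (σ i) (σ j) (σ k) (σ l) = m i j k l := by
    intro σ i j k l
    simp only [hm]
    rw [← ee_comp, ← ee_comp, ← ee_comp, ← ee_comp]
    exact hp σ.symm _ _ _ _
  have b1 : ∀ x X Y Z, L (beA x) X Y Z =
      L (ee 0 x) X Y Z + L (ee 1 x) X Y Z - 2 * L (ee 2 x) X Y Z :=
    fun x X Y Z => phi_be (fun w => L w X Y Z) (fun _ _ => h1 _ _ _ _ _) x
  have b2 : ∀ x X Y Z, L X (beA x) Y Z =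
      L X (ee 0 x) Y Z + L X (ee 1 x) Y Z - 2 * L X (ee 2 x) Y Z :=
    fun x X Y Z => phi_be (fun w => L X w Y Z) (fun _ _ => h2 _ _ _ _ _) x
  have b3 : ∀ x X Y Z, L X Y (beA x) Z =
      L X Y (ee 0 x) Z + L X Y (ee 1 x) Z - 2 * L X Y (ee 2 x) Z :=
    fun x X Y Z => phi_be (fun w => L X Y w Z) (fun _ _ => h3 _ _ _ _ _) x
  have b4 : ∀ x X Y Z, L X Y Z (beA x) =
      L X Y Z (ee 0 x) + L X Y Z (ee 1 x) - 2 * L X Y Z (ee 2 x) :=
    fun x X Y Z => phi_be (fun w => L X Y Z w) (fun _ _ => h4 _ _ _ _ _) x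
  have a2 : ∀ x X Y Z, L X (alA x) Y Z = L X (ee 0 x) Y Z - L X (ee 1 x) Y Z :=
    fun x X Y Z => phi_al (fun w => L X w Y Z) (fun _ _ => h2 _ _ _ _ _) x
  have a3 : ∀ x X Y Z, L X Y (alA x) Z = L X Y (ee 0 x) Z - L X Y (ee 1 x) Z :=
    fun x X Y Z => phi_al (fun w => L X Y w Z) (fun _ _ => h3 _ _ _ _ _) x
  have a4 : ∀ x X Y Z, L X Y Z (alA x) = L X Y Z (ee 0 x) - L X Y Z (ee 1 x) :=
    fun x X Y Z => phi_al (fun w => L X Y Z w) (fun _ _ => h4 _ _ _ _ _) x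
  rw [b1] at r1 r2 r3
  simp only [b2, b3, b4, a2, a3, a4] at r1 r2 r3 ⊢
  have hm' : ∀ i j k l, L (ee i t) (ee j a) (ee k b) (ee l c) = m i j k l := fun _ _ _ _ => rfl
  simp only [hm'] at r1 r2 r3 ⊢
  clear_value m
  have h0002 : m 0 0 0 2 = m 0 0 0 1 := hperm (Equiv.swap 1 2) 0 0 0 1
  have h0020 : m 0 0 2 0 = m 0 0 1 0 := hperm (Equiv.swap 1 2) 0 0 1 0
  have h0021 : m 0 0 2 1 = m 0 0 1 2 := hperm (Equiv.swap 1 2) 0 0 1 2
  have h0022 : m 0 0 2 2 = m 0 0 1 1 := hperm (Equiv.swap 1 2) 0 0 1 1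
  have h0200 : m 0 2 0 0 = m 0 1 0 0 := hperm (Equiv.swap 1 2) 0 1 0 0
  have h0201 : m 0 2 0 1 = m 0 1 0 2 := hperm (Equiv.swap 1 2) 0 1 0 2
  have h0202 : m 0 2 0 2 = m 0 1 0 1 := hperm (Equiv.swap 1 2) 0 1 0 1
  have h0210 : m 0 2 1 0 = m 0 1 2 0 := hperm (Equiv.swap 1 2) 0 1 2 0
  have h0211 : m 0 2 1 1 = m 0 1 2 2 := hperm (Equiv.swap 1 2) 0 1 2 2
  have h0212 : m 0 2 1 2 = m 0 1 2 1 := hperm (Equiv.swap 1 2) 0 1 2 1
  have h0220 : m 0 2 2 0 = m 0 1 1 0 := hperm (Equiv.swap 1 2) 0 1 1 0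
  have h0221 : m 0 2 2 1 = m 0 1 1 2 := hperm (Equiv.swap 1 2) 0 1 1 2
  have h0222 : m 0 2 2 2 = m 0 1 1 1 := hperm (Equiv.swap 1 2) 0 1 1 1
  have h1000 : m 1 0 0 0 = m 0 1 1 1 := hperm (Equiv.swap 0 1) 0 1 1 1
  have h1001 : m 1 0 0 1 = m 0 1 1 0 := hperm (Equiv.swap 0 1) 0 1 1 0
  have h1002 : m 1 0 0 2 = m 0 1 1 2 := hperm (Equiv.swap 0 1) 0 1 1 2
  have h1010 : m 1 0 1 0 = m 0 1 0 1 := hperm (Equiv.swap 0 1) 0 1 0 1
  have h1011 : m 1 0 1 1 = m 0 1 0 0 := hperm (Equiv.swap 0 1) 0 1 0 0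
  have h1012 : m 1 0 1 2 = m 0 1 0 2 := hperm (Equiv.swap 0 1) 0 1 0 2
  have h1020 : m 1 0 2 0 = m 0 1 2 1 := hperm (Equiv.swap 0 1) 0 1 2 1
  have h1021 : m 1 0 2 1 = m 0 1 2 0 := hperm (Equiv.swap 0 1) 0 1 2 0
  have h1022 : m 1 0 2 2 = m 0 1 2 2 := hperm (Equiv.swap 0 1) 0 1 2 2
  have h1100 : m 1 1 0 0 = m 0 0 1 1 := hperm (Equiv.swap 0 1) 0 0 1 1
  have h1101 : m 1 1 0 1 = m 0 0 1 0 := hperm (Equiv.swap 0 1) 0 0 1 0
  have h1102 : m 1 1 0 2 = m 0 0 1 2 := hperm (Equiv.swap 0 1) 0 0 1 2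
  have h1110 : m 1 1 1 0 = m 0 0 0 1 := hperm (Equiv.swap 0 1) 0 0 0 1
  have h1111 : m 1 1 1 1 = m 0 0 0 0 := hperm (Equiv.swap 0 1) 0 0 0 0
  have h1112 : m 1 1 1 2 = m 0 0 0 1 := hperm ((Equiv.swap 0 1 * Equiv.swap 1 2)) 0 0 0 1
  have h1120 : m 1 1 2 0 = m 0 0 1 2 := hperm ((Equiv.swap 0 1 * Equiv.swap 1 2)) 0 0 1 2
  have h1121 : m 1 1 2 1 = m 0 0 1 0 := hperm ((Equiv.swap 0 1 * Equiv.swap 1 2)) 0 0 1 0
  have h1122 : m 1 1 2 2 = m 0 0 1 1 := hperm ((Equiv.swap 0 1 * Equiv.swap 1 2)) 0 0 1 1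
  have h1200 : m 1 2 0 0 = m 0 1 2 2 := hperm ((Equiv.swap 0 1 * Equiv.swap 1 2)) 0 1 2 2
  have h1201 : m 1 2 0 1 = m 0 1 2 0 := hperm ((Equiv.swap 0 1 * Equiv.swap 1 2)) 0 1 2 0
  have h1202 : m 1 2 0 2 = m 0 1 2 1 := hperm ((Equiv.swap 0 1 * Equiv.swap 1 2)) 0 1 2 1
  have h1210 : m 1 2 1 0 = m 0 1 0 2 := hperm ((Equiv.swap 0 1 * Equiv.swap 1 2)) 0 1 0 2
  have h1211 : m 1 2 1 1 = m 0 1 0 0 := hperm ((Equiv.swap 0 1 * Equiv.swap 1 2)) 0 1 0 0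
  have h1212 : m 1 2 1 2 = m 0 1 0 1 := hperm ((Equiv.swap 0 1 * Equiv.swap 1 2)) 0 1 0 1
  have h1220 : m 1 2 2 0 = m 0 1 1 2 := hperm ((Equiv.swap 0 1 * Equiv.swap 1 2)) 0 1 1 2
  have h1221 : m 1 2 2 1 = m 0 1 1 0 := hperm ((Equiv.swap 0 1 * Equiv.swap 1 2)) 0 1 1 0
  have h1222 : m 1 2 2 2 = m 0 1 1 1 := hperm ((Equiv.swap 0 1 * Equiv.swap 1 2)) 0 1 1 1
  have h2000 : m 2 0 0 0 = m 0 1 1 1 := hperm ((Equiv.swap 1 2 * Equiv.swap 0 1)) 0 1 1 1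
  have h2001 : m 2 0 0 1 = m 0 1 1 2 := hperm ((Equiv.swap 1 2 * Equiv.swap 0 1)) 0 1 1 2
  have h2002 : m 2 0 0 2 = m 0 1 1 0 := hperm ((Equiv.swap 1 2 * Equiv.swap 0 1)) 0 1 1 0
  have h2010 : m 2 0 1 0 = m 0 1 2 1 := hperm ((Equiv.swap 1 2 * Equiv.swap 0 1)) 0 1 2 1
  have h2011 : m 2 0 1 1 = m 0 1 2 2 := hperm ((Equiv.swap 1 2 * Equiv.swap 0 1)) 0 1 2 2
  have h2012 : m 2 0 1 2 = m 0 1 2 0 := hperm ((Equiv.swap 1 2 * Equiv.swap 0 1)) 0 1 2 0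
  have h2020 : m 2 0 2 0 = m 0 1 0 1 := hperm ((Equiv.swap 1 2 * Equiv.swap 0 1)) 0 1 0 1
  have h2021 : m 2 0 2 1 = m 0 1 0 2 := hperm ((Equiv.swap 1 2 * Equiv.swap 0 1)) 0 1 0 2
  have h2022 : m 2 0 2 2 = m 0 1 0 0 := hperm ((Equiv.swap 1 2 * Equiv.swap 0 1)) 0 1 0 0
  have h2100 : m 2 1 0 0 = m 0 1 2 2 := hperm (Equiv.swap 0 2) 0 1 2 2
  have h2101 : m 2 1 0 1 = m 0 1 2 1 := hperm (Equiv.swap 0 2) 0 1 2 1
  have h2102 : m 2 1 0 2 = m 0 1 2 0 := hperm (Equiv.swap 0 2) 0 1 2 0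
  have h2110 : m 2 1 1 0 = m 0 1 1 2 := hperm (Equiv.swap 0 2) 0 1 1 2
  have h2111 : m 2 1 1 1 = m 0 1 1 1 := hperm (Equiv.swap 0 2) 0 1 1 1
  have h2112 : m 2 1 1 2 = m 0 1 1 0 := hperm (Equiv.swap 0 2) 0 1 1 0
  have h2120 : m 2 1 2 0 = m 0 1 0 2 := hperm (Equiv.swap 0 2) 0 1 0 2
  have h2121 : m 2 1 2 1 = m 0 1 0 1 := hperm (Equiv.swap 0 2) 0 1 0 1
  have h2122 : m 2 1 2 2 = m 0 1 0 0 := hperm (Equiv.swap 0 2) 0 1 0 0
  have h2200 : m 2 2 0 0 = m 0 0 1 1 := hperm ((Equiv.swap 1 2 * Equiv.swap 0 1)) 0 0 1 1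
  have h2201 : m 2 2 0 1 = m 0 0 1 2 := hperm ((Equiv.swap 1 2 * Equiv.swap 0 1)) 0 0 1 2
  have h2202 : m 2 2 0 2 = m 0 0 1 0 := hperm ((Equiv.swap 1 2 * Equiv.swap 0 1)) 0 0 1 0
  have h2210 : m 2 2 1 0 = m 0 0 1 2 := hperm (Equiv.swap 0 2) 0 0 1 2
  have h2211 : m 2 2 1 1 = m 0 0 1 1 := hperm (Equiv.swap 0 2) 0 0 1 1
  have h2212 : m 2 2 1 2 = m 0 0 1 0 := hperm (Equiv.swap 0 2) 0 0 1 0
  have h2220 : m 2 2 2 0 = m 0 0 0 1 := hperm ((Equiv.swap 1 2 * Equiv.swap 0 1)) 0 0 0 1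
  have h2221 : m 2 2 2 1 = m 0 0 0 1 := hperm (Equiv.swap 0 2) 0 0 0 1
  have h2222 : m 2 2 2 2 = m 0 0 0 0 := hperm (Equiv.swap 0 2) 0 0 0 0
  simp only [h0002, h0020, h0021, h0022, h0200, h0201, h0202, h0210, h0211, h0212, h0220, h0221,
      h0222, h1000, h1001, h1002, h1010, h1011, h1012, h1020, h1021, h1022, h1100, h1101,
      h1102, h1110, h1111, h1112, h1120, h1121, h1122, h1200, h1201, h1202, h1210, h1211,
      h1212, h1220, h1221, h1222, h2000, h2001, h2002, h2010, h2011, h2012, h2020, h2021,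
      h2022, h2100, h2101, h2102, h2110, h2111, h2112, h2120, h2121, h2122, h2200, h2201,
      h2202, h2210, h2211, h2212, h2220, h2221, h2222] at r1 r2 r3 ⊢
  linarith

end Combo

section Torus

variable {F : Type*} [Field F]

/-- evaluation of a `4`-cochain of `GL₃` on four torus elements -/
def LL (f : GeneralLinearGroup (Fin 3) F → GeneralLinearGroup (Fin 3) F →
    GeneralLinearGroup (Fin 3) F → GeneralLinearGroup (Fin 3) F → ℚ)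
    (s t u v : Fin 3 → Fˣ) : ℚ := ev4 f (rho s) (rho t) (rho u) (rho v)

theorem rho_comm (s t : Fin 3 → Fˣ) : Commute (rho s) (rho (F := F) t) :=
  (Commute.all s t).map rho

variable (f : GeneralLinearGroup (Fin 3) F → GeneralLinearGroup (Fin 3) F →
    GeneralLinearGroup (Fin 3) F → GeneralLinearGroup (Fin 3) F → ℚ)
    (hf : ∀ x y z w v, del4 f x y z w v = 0)

include hf

theorem LL_add4 (x y X Y Z : Fin 3 → Fˣ) :
    LL f X Y Z (x * y) = LL f X Y Z x + LL f X Y Z y := by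
  simp only [LL, map_mul]
  exact ev4_mul_last f hf _ _ _ _ _ (rho_comm _ _) (rho_comm _ _) (rho_comm _ _) (rho_comm _ _)
    (rho_comm _ _) (rho_comm _ _) (rho_comm _ _) (rho_comm _ _) (rho_comm _ _)

theorem LL_add3 (x y X Y Z : Fin 3 → Fˣ) :
    LL f X Y (x * y) Z = LL f X Y x Z + LL f X Y y Z := by
  have h := LL_add4 f hf x y X Y Z
  simp only [LL] at h ⊢
  rw [ev4_swap34 f _ _ (rho (x * y)) (rho Z), ev4_swap34 f _ _ (rho x) (rho Z),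
    ev4_swap34 f _ _ (rho y) (rho Z)] at h
  linarith

theorem LL_add2 (x y X Y Z : Fin 3 → Fˣ) :
    LL f X (x * y) Y Z = LL f X x Y Z + LL f X y Y Z := by
  have h := LL_add3 f hf x y X Y Z
  simp only [LL] at h ⊢
  rw [ev4_swap23 f _ (rho (x * y)) (rho Y), ev4_swap23 f _ (rho x) (rho Y),
    ev4_swap23 f _ (rho y) (rho Y)] at h
  linarith

theorem LL_add1 (x y X Y Z : Fin 3 → Fˣ) :
    LL f (x * y) X Y Z = LL f x X Y Z + LL f y X Y Z := by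
  have h := LL_add2 f hf x y X Y Z
  simp only [LL] at h ⊢
  rw [ev4_swap12 f (rho (x * y)) (rho X), ev4_swap12 f (rho x) (rho X),
    ev4_swap12 f (rho y) (rho X)] at h
  linarith

theorem LL_perm (σ : Equiv.Perm (Fin 3)) (X Y Z W : Fin 3 → Fˣ) :
    LL f (X ∘ σ) (Y ∘ σ) (Z ∘ σ) (W ∘ σ) = LL f X Y Z W := by
  simp only [LL, ← perm_conj]
  exact ev4_conj f hf _ _ _ _ _ (rho_comm _ _) (rho_comm _ _) (rho_comm _ _) (rho_comm _ _)
    (rho_comm _ _) (rho_comm _ _)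

variable [CharP F 3]

/-- the Steinberg relation multiplied with two elements of the centraliser of the block -/
theorem LL_steinberg (w w' : Fin 3 → Fˣ) (hw : w 0 = w 1) (hw' : w' 0 = w' 1) (x y : Fˣ)
    (hxy : (x : F) + y = 1) : LL f w w' (al x) (al y) = 0 := by
  have hu : ∀ X Y Z : SpecialLinearGroup (Fin 2) F,
      del2 (fun X Y => P3 (P4 f (rho w)) (rho w') (beta X) (beta Y)) X Y Z = 0 := by
    intro X Y Z
    have h := del2_PP f hf (rho w) (rho w') (beta X) (beta Y) (beta Z) (rho_comm _ _)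
      (rho_comm_iota w hw _) (rho_comm_iota w hw _) (rho_comm_iota w hw _)
      (rho_comm_iota w' hw' _) (rho_comm_iota w' hw' _) (rho_comm_iota w' hw' _)
    simpa only [del2, map_mul] using h
  have h := steinberg_SL2 _ hu x y hxy
  simp only [beta_dg] at h
  simp only [LL, ev4, P2]
  rw [h]
  ring

omit hf [CharP F 3] in
theorem al_mul (x y : Fˣ) : al (x * y) = al x * al y := by
  funext i
  fin_cases i <;> simp [al, mul_comm]

omit hf [CharP F 3] in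
theorem al_one : al (1 : Fˣ) = 1 := by
  funext i
  fin_cases i <;> simp [al]

omit [CharP F 3] in
theorem LL_one3 (X Y Z : Fin 3 → Fˣ) : LL f X Y 1 Z = 0 := by
  have h := LL_add3 f hf 1 1 X Y Z
  rw [mul_one] at h
  linarith

omit [CharP F 3] in
theorem LL_one4 (X Y Z : Fin 3 → Fˣ) : LL f X Y Z 1 = 0 := by
  have h := LL_add4 f hf 1 1 X Y Z
  rw [mul_one] at h
  linarith

omit [CharP F 3] in
theorem LL_neg3 (w w' v : Fin 3 → Fˣ) (x : Fˣ) : LL f w w' (al (-x)) v = LL f w w' (al x) v := by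
  have h1 : LL f w w' (al (-1 : Fˣ)) v = 0 := by
    have h := LL_add3 f hf (al (-1)) (al (-1)) w w' v
    rw [← al_mul, neg_mul_neg, one_mul, al_one, LL_one3 f hf] at h
    linarith
  have h2 := LL_add3 f hf (al (-1)) (al x) w w' v
  rw [← al_mul, neg_one_mul, h1] at h2
  linarith

omit [CharP F 3] in
theorem LL_neg4 (w w' v : Fin 3 → Fˣ) (x : Fˣ) : LL f w w' v (al (-x)) = LL f w w' v (al x) := by
  have h1 : LL f w w' v (al (-1 : Fˣ)) = 0 := by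
    have h := LL_add4 f hf (al (-1)) (al (-1)) w w' v
    rw [← al_mul, neg_mul_neg, one_mul, al_one, LL_one4 f hf] at h
    linarith
  have h2 := LL_add4 f hf (al (-1)) (al x) w w' v
  rw [← al_mul, neg_one_mul, h1] at h2
  linarith

/-- **Vanishing in `GL₃`.** -/
theorem vanish (t a b c : Fˣ) (hab : (a : F) + b = 1) (hac : -(a : F) + c = 1)
    (hbc : -(b : F) + -(c : F) = 1) :
    LL f (ee 0 t) (al a) (al b) (al c) = 0 := by
  have rab : ∀ w w' : Fin 3 → Fˣ, w 0 = w 1 → w' 0 = w' 1 → LL f w w' (al a) (al b) = 0 :=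
    fun w w' hw hw' => LL_steinberg f hf w w' hw hw' a b hab
  have rac : ∀ w w' : Fin 3 → Fˣ, w 0 = w 1 → w' 0 = w' 1 → LL f w w' (al a) (al c) = 0 := by
    intro w w' hw hw'
    rw [← LL_neg3 f hf]
    exact LL_steinberg f hf w w' hw hw' (-a) c (by rw [Units.val_neg]; exact hac)
  have rbc : ∀ w w' : Fin 3 → Fˣ, w 0 = w 1 → w' 0 = w' 1 → LL f w w' (al b) (al c) = 0 := by
    intro w w' hw hw'
    rw [← LL_neg3 f hf, ← LL_neg4 f hf]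
    exact LL_steinberg f hf w w' hw hw' (-b) (-c) (by rw [Units.val_neg, Units.val_neg]; exact hbc)
  have hbe : ∀ x : Fˣ, beA x 0 = beA x 1 := fun x => rfl
  refine combo (LL f) (LL_add1 f hf) (LL_add2 f hf) (LL_add3 f hf) (LL_add4 f hf)
    (LL_perm f hf) t a b c ?_ ?_ ?_
  · have h := rab (beA t) (beA c) (hbe t) (hbe c)
    simp only [LL] at h ⊢
    have h1 := ev4_swap23 f (rho (beA t)) (rho (beA c)) (rho (al a)) (rho (al b))
    have h2 := ev4_swap34 f (rho (beA t)) (rho (al a)) (rho (beA c)) (rho (al b))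
    rw [h, neg_zero] at h1
    rw [h1, neg_zero] at h2
    exact h2
  · exact rbc (beA t) (beA a) (hbe t) (hbe a)
  · have h := rac (beA t) (beA b) (hbe t) (hbe b)
    simp only [LL] at h ⊢
    have h1 := ev4_swap23 f (rho (beA t)) (rho (beA b)) (rho (al a)) (rho (al c))
    rw [h, neg_zero] at h1
    exact h1

end Torus

end Pool.Agent.MP_fb66b8_al
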