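import Pool.Agent.MP_fb66b8_al.Nonvanish
import Pool.Agent.MP_fb66b8_al.Vanish
import Pool.Agent.MP_fb66b8_al.Bridge

/-!
# MP_fb66b8_al: Suslin injectivity fails for `H₄(GL₂) → H₄(GL₃)`
-/

set_option autoImplicit false

open CategoryTheory

namespace Pool.Agent.MP_fb66b8_al

open Matrix

section General

variable {F : Type} [Field F]

theorem iota_dgl_t (t : Fˣ) : iota (DVal.dgl t 1) = rho (ee 0 t) := by
  apply Units.ext
  change blk (!![(t : F), 0; 0, ((1 : Fˣ) : F)]) = _
  rw [blk_apply, rho_val]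
  ext i j
  fin_cases i <;> fin_cases j <;> simp [ee, Pi.mulSingle, Function.update]

theorem iota_dgl_al (x : Fˣ) : iota (DVal.dgl x x⁻¹) = rho (al x) := by
  apply Units.ext
  change blk (!![(x : F), 0; 0, ((x⁻¹ : Fˣ) : F)]) = _
  rw [blk_apply, rho_val]
  ext i j
  fin_cases i <;> fin_cases j <;> simp [al]

theorem main_general [CharP F 3] (D : DVal F) (α β γ : RChar D) (a b c : Fˣ)
    (hab : (a : F) + b = 1) (hac : -(a : F) + c = 1) (hbc : -(b : F) + -(c : F) = 1)
    (ha : D.V a = ((0 : ℤ) : WithTop ℤ))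
    (hb : D.V b = ((0 : ℤ) : WithTop ℤ)) (hc : D.V c = ((0 : ℤ) : WithTop ℤ))
    (αa : α.a a = 1) (αb : α.a b = 0) (αc : α.a c = 0)
    (βa : β.a a = 0) (βb : β.a b = 1) (βc : β.a c = 0)
    (γa : γ.a a = 0) (γb : γ.a b = 0) (γc : γ.a c = 1) :
    ¬ Function.Injective
        (groupHomology.map (A := Rep.trivial ℚ (GeneralLinearGroup (Fin 2) F) ℚ)
          (B := Rep.trivial ℚ (GeneralLinearGroup (Fin 3) F) ℚ) iota (𝟙 _) 4).hom := by
  refine not_injective iota (DVal.dgl D.t 1) (DVal.dgl a a⁻¹) (DVal.dgl b b⁻¹) (DVal.dgl c c⁻¹)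
    (DVal.dgl_comm _ _ _ _) (DVal.dgl_comm _ _ _ _) (DVal.dgl_comm _ _ _ _)
    (DVal.dgl_comm _ _ _ _) (DVal.dgl_comm _ _ _ _) (DVal.dgl_comm _ _ _ _)
    (zz D.A α.chi β.chi γ.chi)
    (zz_cocycle D.A D.commens α.chi β.chi γ.chi α.isChar β.isChar γ.isChar)
    (D.nonvanish α β γ a b c ha hb hc αa αb αc βa βb βc γa γb γc) ?_
  intro f hf
  rw [iota_dgl_t, iota_dgl_al, iota_dgl_al, iota_dgl_al]
  exact vanish f hf D.t a b c hab hac hbc

end General

section Concrete

open HahnSeries

variable (K : Type) [Field K]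

noncomputable def dvalHahn : DVal (HahnSeries ℤ K) where
  V := HahnSeries.orderTop
  top_iff x := HahnSeries.orderTop_eq_top
  mul' x y := HahnSeries.orderTop_mul x y
  add' x y := HahnSeries.min_orderTop_le_orderTop_add
  add_lt x y h := HahnSeries.orderTop_add_eq_left h
  t := Units.mk0 (HahnSeries.single 1 1) (by simp)
  V_t := by
    simp

theorem dvalHahn_V (x : HahnSeries ℤ K) : (dvalHahn K).V x = x.orderTop := rfl

variable {K}

/-- residue character from a character of `K` -/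
noncomputable def rcharHahn (φ : K → ℚ) (hφ : ∀ x y, x ≠ 0 → y ≠ 0 → φ (x * y) = φ x + φ y) :
    RChar (dvalHahn K) where
  a x := φ x.leadingCoeff
  mul' x y hx hy := by
    rw [HahnSeries.leadingCoeff_mul]
    exact hφ _ _ (HahnSeries.leadingCoeff_ne_zero.2 hx) (HahnSeries.leadingCoeff_ne_zero.2 hy)
  add' x y _ h := by
    rw [HahnSeries.leadingCoeff_add_eq_left h]

/-- constants as units of the Hahn series field -/
noncomputable def cst (x : K) (hx : x ≠ 0) : (HahnSeries ℤ K)ˣ :=
  Units.mk0 (HahnSeries.C x) (by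
    intro h
    apply hx
    exact HahnSeries.C_injective (h.trans (map_zero _).symm))

theorem cst_val (x : K) (hx : x ≠ 0) : ((cst x hx : (HahnSeries ℤ K)ˣ) : HahnSeries ℤ K) =
    HahnSeries.C x := rfl

theorem V_cst (x : K) (hx : x ≠ 0) : (dvalHahn K).V (cst x hx) = ((0 : ℤ) : WithTop ℤ) := by
  rw [dvalHahn_V, cst_val, HahnSeries.C_apply]
  exact HahnSeries.orderTop_single hx

theorem rchar_cst (φ : K → ℚ) (hφ : ∀ x y, x ≠ 0 → y ≠ 0 → φ (x * y) = φ x + φ y)
    (x : K) (hx : x ≠ 0) : (rcharHahn φ hφ).a (cst x hx) = φ x := by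
  change φ (HahnSeries.leadingCoeff (HahnSeries.C x)) = φ x
  rw [HahnSeries.C_apply, HahnSeries.leadingCoeff_of_single]

end Concrete

section RatFunc

open Polynomial

/-- order of vanishing at a rational point of the affine line -/
noncomputable def ordR {k : Type} [Field k] (r : k) (x : RatFunc k) : ℚ :=
  (x.num.rootMultiplicity r : ℚ) - (x.denom.rootMultiplicity r : ℚ)

theorem ordR_mul {k : Type} [Field k] (r : k) (x y : RatFunc k) (hx : x ≠ 0) (hy : y ≠ 0) :
    ordR r (x * y) = ordR r x + ordR r y := by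
  have h := RatFunc.num_denom_mul x y
  have h1 := congrArg (rootMultiplicity r) h
  have nx := RatFunc.num_ne_zero hx
  have ny := RatFunc.num_ne_zero hy
  have nxy := RatFunc.num_ne_zero (mul_ne_zero hx hy)
  have dx := RatFunc.denom_ne_zero x
  have dy := RatFunc.denom_ne_zero y
  have dxy := RatFunc.denom_ne_zero (x * y)
  rw [rootMultiplicity_mul (mul_ne_zero nxy (mul_ne_zero dx dy)),
    rootMultiplicity_mul (mul_ne_zero dx dy),
    rootMultiplicity_mul (mul_ne_zero (mul_ne_zero nx ny) dxy),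
    rootMultiplicity_mul (mul_ne_zero nx ny)] at h1
  have h2 : ((rootMultiplicity r (x * y).num : ℚ) +
      ((rootMultiplicity r x.denom : ℚ) + (rootMultiplicity r y.denom : ℚ))) =
      ((rootMultiplicity r x.num : ℚ) + (rootMultiplicity r y.num : ℚ)) +
        (rootMultiplicity r (x * y).denom : ℚ) := by exact_mod_cast h1
  simp only [ordR]
  linarith

theorem ordR_poly {k : Type} [Field k] (r : k) (p : k[X]) :
    ordR r (algebraMap k[X] (RatFunc k) p) = (p.rootMultiplicity r : ℚ) := by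
  rw [ordR, RatFunc.num_algebraMap, RatFunc.denom_algebraMap]
  have : rootMultiplicity r (1 : k[X]) = 0 := by
    rw [← C_1, rootMultiplicity_C]
  rw [this]
  simp

theorem ordR_neg {k : Type} [Field k] (r : k) (x : RatFunc k) (hx : x ≠ 0) :
    ordR r (-x) = ordR r x := by
  have h1 := ordR_mul r (-1 : RatFunc k) (-1) (by simp) (by simp)
  have h2 := ordR_mul r (1 : RatFunc k) 1 one_ne_zero one_ne_zero
  rw [neg_mul_neg, mul_one] at h1
  rw [mul_one] at h2
  have h3 := ordR_mul r (-1 : RatFunc k) x (by simp) hx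
  rw [neg_one_mul] at h3
  linarith

theorem ordR_X_sub_C {k : Type} [Field k] [DecidableEq k] (r y : k) :
    ordR r (algebraMap k[X] (RatFunc k) (X - C y)) = if r = y then 1 else 0 := by
  rw [ordR_poly, rootMultiplicity_X_sub_C]
  split_ifs <;> simp

instance : Fact (Nat.Prime 3) := ⟨Nat.prime_three⟩

/-- the base field `F₃(s)` -/
abbrev KK : Type := RatFunc (ZMod 3)

/-- the field `F₃(s)((t))` -/
abbrev FF : Type := HahnSeries ℤ KK

noncomputable def pa : KK := algebraMap (ZMod 3)[X] KK (X - C 0)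
noncomputable def pb : KK := -algebraMap (ZMod 3)[X] KK (X - C 1)
noncomputable def pc : KK := algebraMap (ZMod 3)[X] KK (X - C (-1))

theorem X_sub_C_ne' (y : ZMod 3) : algebraMap (ZMod 3)[X] KK (X - C y) ≠ 0 := by
  intro h
  have := (map_eq_zero_iff _ (RatFunc.algebraMap_injective (ZMod 3))).1 h
  exact X_sub_C_ne_zero y this

theorem pa_ne : pa ≠ 0 := X_sub_C_ne' 0
theorem pb_ne : pb ≠ 0 := neg_ne_zero.2 (X_sub_C_ne' 1)
theorem pc_ne : pc ≠ 0 := X_sub_C_ne' (-1)

theorem charKK : CharP KK 3 := by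
  have : Function.Injective (algebraMap (ZMod 3) KK) := (algebraMap (ZMod 3) KK).injective
  exact charP_of_injective_ringHom this 3

theorem charFF : CharP FF 3 := by
  have := charKK
  exact charP_of_injective_ringHom (f := (HahnSeries.C : KK →+* FF)) HahnSeries.C_injective 3

theorem rel1 : pa + pb = 1 := by
  rw [pa, pb, ← sub_eq_add_neg, ← map_sub]
  have : (X - C (0 : ZMod 3) - (X - C 1)) = 1 := by
    rw [C_0, C_1]; ring
  rw [this, map_one]

theorem rel2 : -pa + pc = 1 := by
  rw [pa, pc, ← map_neg, ← map_add]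
  have : (-(X - C (0 : ZMod 3)) + (X - C (-1))) = 1 := by
    rw [C_0, C_neg, C_1]; ring
  rw [this, map_one]

theorem rel3 : -pb + -pc = 1 := by
  rw [pb, pc, neg_neg, ← map_neg, ← map_add]
  have : ((X - C (1 : ZMod 3)) + -(X - C (-1))) = 1 := by
    rw [C_neg, C_1]
    have h3 : (3 : (ZMod 3)[X]) = 0 := by
      have := CharP.cast_eq_zero (ZMod 3)[X] 3
      exact_mod_cast this
    linear_combination (-1 : (ZMod 3)[X]) * h3
  rw [this, map_one]

end RatFunc

section Final

theorem final : ¬ Function.Injective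
        (groupHomology.map (A := Rep.trivial ℚ (GeneralLinearGroup (Fin 2) FF) ℚ)
          (B := Rep.trivial ℚ (GeneralLinearGroup (Fin 3) FF) ℚ) iota (𝟙 _) 4).hom := by
  have := charFF
  refine main_general (dvalHahn KK) (rcharHahn (ordR 0) (ordR_mul 0))
    (rcharHahn (ordR 1) (ordR_mul 1)) (rcharHahn (ordR (-1)) (ordR_mul (-1)))
    (cst pa pa_ne) (cst pb pb_ne) (cst pc pc_ne) ?_ ?_ ?_ (V_cst _ _) (V_cst _ _) (V_cst _ _)
    ?_ ?_ ?_ ?_ ?_ ?_ ?_ ?_ ?_
  · rw [cst_val, cst_val, ← map_add, rel1, map_one]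
  · rw [cst_val, cst_val, ← map_neg, ← map_add, rel2, map_one]
  · rw [cst_val, cst_val, ← map_neg, ← map_neg, ← map_add, rel3, map_one]
  all_goals
    rw [rchar_cst]
    first
    | (rw [pa, ordR_X_sub_C]; decide)
    | (rw [pb, ordR_neg _ _ (X_sub_C_ne' 1), ordR_X_sub_C]; decide)
    | (rw [pc, ordR_X_sub_C]; decide)

theorem infiniteFF : Infinite FF := by
  have hinj : Function.Injective (fun n : ℕ => (HahnSeries.single (n : ℤ) (1 : KK) : FF)) := by
    intro m n h
    have h1 := congrArg HahnSeries.orderTop h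
    simp only at h1
    rw [HahnSeries.orderTop_single one_ne_zero, HahnSeries.orderTop_single one_ne_zero,
      WithTop.coe_eq_coe] at h1
    exact_mod_cast h1
  exact Infinite.of_injective _ hinj

end Final

end Pool.Agent.MP_fb66b8_al
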