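import Pool.Agent.MP_fb66b8_al.GLVal

/-!
# MP_fb66b8_al: the class is nonzero in `H₄(GL₂(F);ℚ)`
-/

set_option autoImplicit false

namespace Pool.Agent.MP_fb66b8_al

open Matrix

/-- a character of the residue field, extended to `Fˣ` through leading coefficients -/
structure RChar {F : Type*} [Field F] (D : DVal F) where
  a : F → ℚ
  mul' : ∀ x y, x ≠ 0 → y ≠ 0 → a (x * y) = a x + a y
  add' : ∀ x y, x ≠ 0 → D.V x < D.V y → a (x + y) = a x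

namespace RChar

variable {F : Type*} [Field F] {D : DVal F} (α : RChar D)

/-- the character `g ↦ α(g₀₀/g₁₁)` -/
def chi (g : GeneralLinearGroup (Fin 2) F) : ℚ := α.a (g.val 0 0) - α.a (g.val 1 1)

theorem isChar : IsChar D.Γ α.chi := by
  intro g hg h hh
  obtain ⟨g0, g1, g2, g3⟩ := (D.mem_Γ_iff g).1 hg
  obtain ⟨h0, h1, h2, h3⟩ := (D.mem_Γ_iff h).1 hh
  have gt := D.V_ne_top g0
  have ht := D.V_ne_top h0
  have g11 : g.val 1 1 ≠ 0 := by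
    intro h
    rw [h, D.V_zero] at g1
    exact gt g1.symm
  have h11 : h.val 1 1 ≠ 0 := by
    intro h
    rw [h, D.V_zero] at h1
    exact ht h1.symm
  have e00 : α.a ((g * h).val 0 0) = α.a (g.val 0 0) + α.a (h.val 0 0) := by
    rw [DVal.mul_entry, α.add' _ _ (mul_ne_zero g0 h0), α.mul' _ _ g0 h0]
    rw [D.mul', D.mul']
    exact wt_lt_add ht g2 h3
  have e11 : α.a ((g * h).val 1 1) = α.a (g.val 1 1) + α.a (h.val 1 1) := by
    rw [DVal.mul_entry, add_comm, α.add' _ _ (mul_ne_zero g11 h11), α.mul' _ _ g11 h11]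
    rw [D.mul', D.mul', g1, h1, add_comm (D.V (g.val 0 0)), add_comm (D.V (g.val 1 0))]
    exact wt_lt_add gt h2 g3
  rw [chi, e00, e11, chi, chi]
  ring

theorem a_one : α.a 1 = 0 := by
  have h := α.mul' 1 1 one_ne_zero one_ne_zero
  rw [mul_one] at h
  linarith

theorem a_inv (x : Fˣ) : α.a ((x⁻¹ : Fˣ) : F) = - α.a x := by
  have h := α.mul' x ((x⁻¹ : Fˣ) : F) x.ne_zero (x⁻¹ : Fˣ).ne_zero
  rw [Units.mul_inv, α.a_one] at h
  linarith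

theorem chi_dgl (x y : Fˣ) : α.chi (DVal.dgl x y) = α.a x - α.a y := rfl

end RChar

namespace DVal

variable {F : Type*} [Field F] (D : DVal F)

theorem w_conj (x y : Fˣ) : D.wgl⁻¹ * dgl x y * D.wgl = dgl y x := by
  rw [mul_assoc, inv_mul_eq_iff_eq_mul]
  apply Units.ext
  change !![(x : F), 0; 0, (y : F)] * !![0, (D.t : F); 1, 0] =
    !![0, (D.t : F); 1, 0] * !![(y : F), 0; 0, (x : F)]
  rw [Matrix.mul_fin_two, Matrix.mul_fin_two]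
  simp [mul_comm]

theorem dgl_mem (x y : Fˣ) (h : D.V x = D.V y) : dgl x y ∈ D.Γ := by
  rw [mem_Γ_iff]
  refine ⟨x.ne_zero, h.symm, ?_, ?_⟩
  · change D.V x < D.V 0
    rw [D.V_zero]
    exact lt_top_iff_ne_top.2 (D.V_ne_top x.ne_zero)
  · change D.V x ≤ D.V 0
    rw [D.V_zero]
    exact le_top

theorem dgl_comm (x y z w : Fˣ) : Commute (dgl x y) (dgl z w) := by
  rw [commute_iff_eq, dgl_mul, dgl_mul, mul_comm x, mul_comm y]

theorem V_inv_eq (x : Fˣ) (h : D.V x = ((0 : ℤ) : WithTop ℤ)) :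
    D.V ((x⁻¹ : Fˣ) : F) = ((0 : ℤ) : WithTop ℤ) := by
  have h1 := D.V_inv x.ne_zero
  rw [h, ← Units.val_inv_eq_inv_val] at h1
  rwa [show ((0 : ℤ) : WithTop ℤ) + D.V ((x⁻¹ : Fˣ) : F) = D.V ((x⁻¹ : Fˣ) : F) from
    zero_add _] at h1

theorem zz_val (α β γ : RChar D) (a b c : Fˣ) (ha : D.V a = ((0 : ℤ) : WithTop ℤ))
    (hb : D.V b = ((0 : ℤ) : WithTop ℤ)) (hc : D.V c = ((0 : ℤ) : WithTop ℤ)) :
    zz D.A α.chi β.chi γ.chi (dgl D.t 1) (dgl a a⁻¹) (dgl b b⁻¹) (dgl c c⁻¹) =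
      16 * (α.a a * β.a b * γ.a c) := by
  have ha' := D.V_inv_eq a ha
  have hb' := D.V_inv_eq b hb
  have hc' := D.V_inv_eq c hc
  rw [zz_eval D.A α.chi β.chi γ.chi α.isChar β.isChar γ.isChar (dgl D.t 1) D.wgl
    (dgl a a⁻¹) (dgl b b⁻¹) (dgl c c⁻¹) D.cc_t (dgl_comm _ _ _ _) (dgl_comm _ _ _ _)
    (dgl_comm _ _ _ _) (dgl_comm _ _ _ _) (dgl_comm _ _ _ _) (dgl_comm _ _ _ _)
    (D.dgl_mem _ _ (by rw [ha, ha'])) (D.dgl_mem _ _ (by rw [hb, hb']))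
    (D.dgl_mem _ _ (by rw [hc, hc']))
    (by rw [D.w_conj]; exact D.dgl_mem _ _ (by rw [ha, ha']))
    (by rw [D.w_conj]; exact D.dgl_mem _ _ (by rw [hb, hb']))
    (by rw [D.w_conj]; exact D.dgl_mem _ _ (by rw [hc, hc']))]
  rw [D.w_conj, D.w_conj, D.w_conj]
  simp only [RChar.chi_dgl, RChar.a_inv]
  ring

/-- **Nonvanishing in `GL₂`.** -/
theorem nonvanish (α β γ : RChar D) (a b c : Fˣ) (ha : D.V a = ((0 : ℤ) : WithTop ℤ))
    (hb : D.V b = ((0 : ℤ) : WithTop ℤ)) (hc : D.V c = ((0 : ℤ) : WithTop ℤ))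
    (αa : α.a a = 1) (αb : α.a b = 0) (αc : α.a c = 0)
    (βa : β.a a = 0) (βb : β.a b = 1) (βc : β.a c = 0)
    (γa : γ.a a = 0) (γb : γ.a b = 0) (γc : γ.a c = 1) :
    ev4 (zz D.A α.chi β.chi γ.chi) (dgl D.t 1) (dgl a a⁻¹) (dgl b b⁻¹) (dgl c c⁻¹) ≠ 0 := by
  have ha' := D.V_inv_eq a ha
  have hb' := D.V_inv_eq b hb
  have hc' := D.V_inv_eq c hc
  have za : ∀ x y z, zz D.A α.chi β.chi γ.chi (dgl a a⁻¹) x y z = 0 :=
    fun x y z => zz_zero _ _ _ _ _ _ _ _ (D.cc_dgl a a⁻¹ (by rw [ha, ha']))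
  have zb : ∀ x y z, zz D.A α.chi β.chi γ.chi (dgl b b⁻¹) x y z = 0 :=
    fun x y z => zz_zero _ _ _ _ _ _ _ _ (D.cc_dgl b b⁻¹ (by rw [hb, hb']))
  have zc : ∀ x y z, zz D.A α.chi β.chi γ.chi (dgl c c⁻¹) x y z = 0 :=
    fun x y z => zz_zero _ _ _ _ _ _ _ _ (D.cc_dgl c c⁻¹ (by rw [hc, hc']))
  simp only [ev4, P2, P3, P4, za, zb, zc]
  rw [D.zz_val α β γ a b c ha hb hc, D.zz_val α β γ a c b ha hc hb,
    D.zz_val α β γ b a c hb ha hc, D.zz_val α β γ b c a hb hc ha,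
    D.zz_val α β γ c a b hc ha hb, D.zz_val α β γ c b a hc hb ha]
  rw [αa, αb, αc, βa, βb, βc, γa, γb, γc]
  norm_num

end DVal

end Pool.Agent.MP_fb66b8_al
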