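import Pool.Agent.MP_fb66b8_al.Cochain

/-!
# MP_fb66b8_al: the Steinberg relation for rational `2`-cocycles of `SL₂` in characteristic 3

Central extensions by `ℚ` attached to `2`-cocycles, canonical lifts of elements of order
dividing `3`, and Milnor's computation.
-/

set_option autoImplicit false

namespace Pool.Agent.MP_fb66b8_al

section Ext

variable {G : Type*} [Group G]

/-- The central extension of `G` by `ℚ` attached to a `2`-cocycle. -/
@[ext]
structure CExt (u : G → G → ℚ) (hu : ∀ x y z, del2 u x y z = 0) where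
  q : ℚ
  g : G

variable {u : G → G → ℚ} {hu : ∀ x y z, del2 u x y z = 0}

theorem cocycle_one_left (hu : ∀ x y z, del2 u x y z = 0) (h : G) : u 1 h = u 1 1 := by
  have := hu 1 1 h
  simp only [del2, one_mul] at this
  linarith

theorem cocycle_one_right (hu : ∀ x y z, del2 u x y z = 0) (h : G) : u h 1 = u 1 1 := by
  have := hu h 1 1
  simp only [del2, mul_one] at this
  linarith

namespace CExt

instance : Mul (CExt u hu) := ⟨fun a b => ⟨a.q + b.q + u a.g b.g, a.g * b.g⟩⟩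
instance : One (CExt u hu) := ⟨⟨- u 1 1, 1⟩⟩
instance : Inv (CExt u hu) := ⟨fun a => ⟨- a.q - u a.g⁻¹ a.g - u 1 1, a.g⁻¹⟩⟩

theorem mul_q (a b : CExt u hu) : (a * b).q = a.q + b.q + u a.g b.g := rfl
theorem mul_g (a b : CExt u hu) : (a * b).g = a.g * b.g := rfl
theorem one_q : (1 : CExt u hu).q = - u 1 1 := rfl
theorem one_g : (1 : CExt u hu).g = 1 := rfl
theorem inv_q (a : CExt u hu) : a⁻¹.q = - a.q - u a.g⁻¹ a.g - u 1 1 := rfl
theorem inv_g (a : CExt u hu) : a⁻¹.g = a.g⁻¹ := rfl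

instance : Group (CExt u hu) :=
  Group.ofLeftAxioms
    (by
      intro a b c
      have h := hu a.g b.g c.g
      simp only [del2] at h
      apply CExt.ext
      · simp only [mul_q, mul_g]
        linarith
      · simp only [mul_g, mul_assoc])
    (by
      intro a
      have h := cocycle_one_left hu a.g
      apply CExt.ext
      · simp only [mul_q, one_q, one_g]
        linarith
      · simp only [mul_g, one_g, one_mul])
    (by
      intro a
      apply CExt.ext
      · simp only [mul_q, inv_q, inv_g, one_q]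
        ring
      · simp only [mul_g, inv_g, one_g, inv_mul_cancel])

/-- canonical lift of an element whose cube is trivial -/
def L (h : G) : CExt u hu := ⟨-(u 1 1 + u h h + u (h * h) h) / 3, h⟩

theorem L_g (h : G) : (L h : CExt u hu).g = h := rfl
theorem L_q (h : G) : (L h : CExt u hu).q = -(u 1 1 + u h h + u (h * h) h) / 3 := rfl

theorem L_cube (h : G) (h3 : h * h * h = 1) :
    (L h : CExt u hu) * L h * L h = 1 := by
  apply CExt.ext
  · simp only [mul_q, mul_g, L_q, L_g, one_q]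
    ring
  · exact h3

theorem uniq (y : CExt u hu) (h3 : y * y * y = 1) : y = L y.g := by
  have h1 := congrArg CExt.q h3
  simp only [mul_q, mul_g, one_q] at h1
  apply CExt.ext
  · rw [L_q]
    linarith
  · rfl

theorem conj_L (g : CExt u hu) (h : G) (h3 : h * h * h = 1) :
    g * L h * g⁻¹ = L (g.g * h * g.g⁻¹) := by
  have h1 : (g * L h * g⁻¹) * (g * L h * g⁻¹) * (g * L h * g⁻¹) = 1 := by
    have : (g * L h * g⁻¹) * (g * L h * g⁻¹) * (g * L h * g⁻¹) =
        g * (L h * L h * L h) * g⁻¹ := by group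
    rw [this, L_cube h h3]
    group
  exact uniq _ h1

theorem L_mul (h k : G) (hh : h * h * h = 1) (hk : k * k * k = 1) (hc : h * k = k * h) :
    (L h : CExt u hu) * L k = L (h * k) := by
  have h1 : (L h : CExt u hu) * L k = L k * L h := by
    have h2 := conj_L (L h : CExt u hu) k hk
    rw [L_g, show h * k * h⁻¹ = k by rw [hc]; group] at h2
    calc (L h : CExt u hu) * L k = (L h * L k * (L h)⁻¹) * L h := by group
      _ = L k * L h := by rw [h2]
  have h2 : ((L h : CExt u hu) * L k) * (L h * L k) * (L h * L k) = 1 := by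
    calc ((L h : CExt u hu) * L k) * (L h * L k) * (L h * L k)
        = L h * (L k * L h) * (L k * L h) * L k := by group
      _ = L h * (L h * L k) * (L h * L k) * L k := by rw [← h1]
      _ = L h * L h * (L k * L h) * L k * L k := by group
      _ = L h * L h * (L h * L k) * L k * L k := by rw [← h1]
      _ = (L h * L h * L h) * (L k * L k * L k) := by group
      _ = 1 := by rw [L_cube h hh, L_cube k hk, one_mul]
  exact uniq _ h2

/-- a commutation of lifts gives symmetry of the cocycle -/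
theorem symm_of_comm (a b : CExt u hu) (h : a * b = b * a) : u a.g b.g = u b.g a.g := by
  have h1 := congrArg CExt.q h
  simp only [mul_q] at h1
  linarith

end CExt

end Ext

section Milnor

/-- Milnor's computation -/
theorem milnor_computation {F : Type*} [Field F] {E : Type*} [Group E] (X Y : F → E)
    (hX : ∀ a b, X (a + b) = X a * X b) (hY : ∀ a b, Y (a + b) = Y a * Y b)
    (h1 : ∀ a : F, a ≠ 0 → (X a * Y (-a⁻¹) * X a) * Y 1 = X (-a ^ 2) * (X a * Y (-a⁻¹) * X a))
    (h2 : ∀ a : F, a ≠ 0 → Y 1 * (X a * Y (-a⁻¹) * X a) = (X a * Y (-a⁻¹) * X a) * X (-a ^ 2))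
    (h3 : X (-1) * Y 1 * X (-1) = Y 1 * X (-1) * Y 1)
    (x y : F) (hx : x ≠ 0) (hy : y ≠ 0) (hxy : x + y = 1) :
    (X x * Y (-x⁻¹) * X x) * (X (-1) * Y 1 * X (-1)) * (X y * Y (-y⁻¹) * X y) =
      X (x * y) * Y (-(x * y)⁻¹) * X (x * y) := by
  have e1 : X (-x ^ 2) * X x = X (x * y) := by
    rw [← hX]; congr 1
    have : y = 1 - x := by linear_combination hxy
    rw [this]; ring
  have e2 : X y * X (-y ^ 2) = X (x * y) := by
    rw [← hX]; congr 1
    have : x = 1 - y := by linear_combination hxy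
    rw [this]; ring
  have e3 : X x * X (-1) * X y = 1 := by
    have h0 : X 0 = 1 := by
      have := hX 0 0
      rw [add_zero] at this
      exact (mul_eq_left.mp this.symm)
    rw [← hX, ← hX, ← h0]; congr 1
    linear_combination hxy
  have e4 : Y (-x⁻¹) * Y (-y⁻¹) = Y (-(x * y)⁻¹) := by
    rw [← hY]; congr 1
    field_simp
    linear_combination (-1 : F) * hxy
  calc (X x * Y (-x⁻¹) * X x) * (X (-1) * Y 1 * X (-1)) * (X y * Y (-y⁻¹) * X y)
      = (X x * Y (-x⁻¹) * X x) * (Y 1 * X (-1) * Y 1) * (X y * Y (-y⁻¹) * X y) := by rw [h3]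
    _ = ((X x * Y (-x⁻¹) * X x) * Y 1) * X (-1) * (Y 1 * (X y * Y (-y⁻¹) * X y)) := by group
    _ = (X (-x ^ 2) * (X x * Y (-x⁻¹) * X x)) * X (-1) *
        ((X y * Y (-y⁻¹) * X y) * X (-y ^ 2)) := by rw [h1 x hx, h2 y hy]
    _ = (X (-x ^ 2) * X x) * Y (-x⁻¹) * (X x * X (-1) * X y) * Y (-y⁻¹) *
        (X y * X (-y ^ 2)) := by group
    _ = X (x * y) * (Y (-x⁻¹) * Y (-y⁻¹)) * X (x * y) := by rw [e1, e2, e3]; group
    _ = _ := by rw [e4]

end Milnor

section SL2

open Matrix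

variable {F : Type*} [Field F]

/-- upper elementary matrix -/
def x12 (a : F) : SpecialLinearGroup (Fin 2) F :=
  ⟨!![1, a; 0, 1], by simp [Matrix.det_fin_two_of]⟩

/-- lower elementary matrix -/
def x21 (a : F) : SpecialLinearGroup (Fin 2) F :=
  ⟨!![1, 0; a, 1], by simp [Matrix.det_fin_two_of]⟩

/-- the diagonal matrix `diag(x, x⁻¹)` -/
def dg (x : Fˣ) : SpecialLinearGroup (Fin 2) F :=
  ⟨!![(x : F), 0; 0, ((x⁻¹ : Fˣ) : F)], by simp [Matrix.det_fin_two_of]⟩

theorem x12_mul (a b : F) : x12 a * x12 b = x12 (a + b) := by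
  apply Subtype.ext
  change (!![1, a; 0, 1] * !![1, b; 0, 1] : Matrix (Fin 2) (Fin 2) F) = !![1, a + b; 0, 1]
  rw [Matrix.mul_fin_two]
  ext i j
  fin_cases i <;> fin_cases j <;> simp [add_comm]

theorem x21_mul (a b : F) : x21 a * x21 b = x21 (a + b) := by
  apply Subtype.ext
  change (!![1, 0; a, 1] * !![1, 0; b, 1] : Matrix (Fin 2) (Fin 2) F) = !![1, 0; a + b, 1]
  rw [Matrix.mul_fin_two]
  ext i j
  fin_cases i <;> fin_cases j <;> simp

theorem x12_zero : x12 (0 : F) = 1 := by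
  apply Subtype.ext
  change (!![1, 0; 0, 1] : Matrix (Fin 2) (Fin 2) F) = 1
  rw [Matrix.one_fin_two]

theorem x21_zero : x21 (0 : F) = 1 := by
  apply Subtype.ext
  change (!![1, 0; 0, 1] : Matrix (Fin 2) (Fin 2) F) = 1
  rw [Matrix.one_fin_two]

theorem conj1 (a : F) (ha : a ≠ 0) :
    (x12 a * x21 (-a⁻¹) * x12 a) * x21 1 = x12 (-a ^ 2) * (x12 a * x21 (-a⁻¹) * x12 a) := by
  apply Subtype.ext
  change ((!![1, a; 0, 1] * !![1, 0; -a⁻¹, 1] * !![1, a; 0, 1]) * !![1, 0; 1, 1] :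
      Matrix (Fin 2) (Fin 2) F) =
    !![1, -a ^ 2; 0, 1] * (!![1, a; 0, 1] * !![1, 0; -a⁻¹, 1] * !![1, a; 0, 1])
  simp only [Matrix.mul_fin_two]
  have e : a ^ 2 * a⁻¹ = a := by field_simp
  ext i j
  fin_cases i <;> fin_cases j <;> simp [ha, e]

theorem conj2 (a : F) (ha : a ≠ 0) :
    (x12 a * x21 (-a⁻¹) * x12 a) * x12 (-a ^ 2) = x21 1 * (x12 a * x21 (-a⁻¹) * x12 a) := by
  apply Subtype.ext
  change ((!![1, a; 0, 1] * !![1, 0; -a⁻¹, 1] * !![1, a; 0, 1]) * !![1, -a ^ 2; 0, 1] :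
      Matrix (Fin 2) (Fin 2) F) =
    !![1, 0; 1, 1] * (!![1, a; 0, 1] * !![1, 0; -a⁻¹, 1] * !![1, a; 0, 1])
  simp only [Matrix.mul_fin_two]
  have e : a⁻¹ * a ^ 2 = a := by field_simp
  ext i j
  fin_cases i <;> fin_cases j <;> simp [ha, e]

theorem dg_eq (x : Fˣ) :
    (x12 (x : F) * x21 (-(x : F)⁻¹) * x12 (x : F)) * (x12 (-1) * x21 1 * x12 (-1)) = dg x := by
  have hx : (x : F) ≠ 0 := x.ne_zero
  apply Subtype.ext
  change ((!![1, (x : F); 0, 1] * !![1, 0; -(x : F)⁻¹, 1] * !![1, (x : F); 0, 1]) *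
      (!![1, -1; 0, 1] * !![1, 0; 1, 1] * !![1, -1; 0, 1]) : Matrix (Fin 2) (Fin 2) F) =
      !![(x : F), 0; 0, ((x⁻¹ : Fˣ) : F)]
  simp only [Matrix.mul_fin_two]
  ext i j
  fin_cases i <;> fin_cases j <;> simp

variable [CharP F 3]

theorem three_zero (a : F) : a + a + a = 0 := by
  have h : (3 : F) = 0 := by
    have := CharP.cast_eq_zero F 3
    exact_mod_cast this
  linear_combination a * h

theorem x12_cube (a : F) : x12 a * x12 a * x12 a = 1 := by
  rw [x12_mul, x12_mul, three_zero, x12_zero]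

theorem x21_cube (a : F) : x21 a * x21 a * x21 a = 1 := by
  rw [x21_mul, x21_mul, three_zero, x21_zero]

/-- **Steinberg relation**: any rational `2`-cocycle on `SL₂(F)`, `F` of characteristic `3`, is
symmetric on `(dg x, dg y)` when `x + y = 1`. -/
theorem steinberg_SL2 (u : SpecialLinearGroup (Fin 2) F → SpecialLinearGroup (Fin 2) F → ℚ)
    (hu : ∀ x y z, del2 u x y z = 0) (x y : Fˣ) (hxy : (x : F) + y = 1) :
    u (dg x) (dg y) = u (dg y) (dg x) := by
  set X : F → CExt u hu := fun a => CExt.L (x12 a) with hXdef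
  set Y : F → CExt u hu := fun a => CExt.L (x21 a) with hYdef
  have hX : ∀ a b, X (a + b) = X a * X b := by
    intro a b
    simp only [hXdef]
    rw [CExt.L_mul _ _ (x12_cube a) (x12_cube b) (by rw [x12_mul, x12_mul, add_comm]), x12_mul]
  have hY : ∀ a b, Y (a + b) = Y a * Y b := by
    intro a b
    simp only [hYdef]
    rw [CExt.L_mul _ _ (x21_cube a) (x21_cube b) (by rw [x21_mul, x21_mul, add_comm]), x21_mul]
  have hWg : ∀ a, (X a * Y (-a⁻¹) * X a).g = x12 a * x21 (-a⁻¹) * x12 a := fun a => rfl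
  have h1 : ∀ a : F, a ≠ 0 →
      (X a * Y (-a⁻¹) * X a) * Y 1 = X (-a ^ 2) * (X a * Y (-a⁻¹) * X a) := by
    intro a ha
    have h := CExt.conj_L (X a * Y (-a⁻¹) * X a) (x21 1) (x21_cube 1)
    rw [hWg, conj1 a ha, mul_inv_cancel_right] at h
    exact mul_inv_eq_iff_eq_mul.mp h
  have h2 : ∀ a : F, a ≠ 0 →
      Y 1 * (X a * Y (-a⁻¹) * X a) = (X a * Y (-a⁻¹) * X a) * X (-a ^ 2) := by
    intro a ha
    have h := CExt.conj_L (X a * Y (-a⁻¹) * X a) (x12 (-a ^ 2)) (x12_cube _)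
    rw [hWg, conj2 a ha, mul_inv_cancel_right] at h
    exact (mul_inv_eq_iff_eq_mul.mp h).symm
  have hm1 : (-(-1 : F)⁻¹) = 1 := by norm_num
  have hm2 : (-(-1 : F) ^ 2) = -1 := by norm_num
  have h3 : X (-1) * Y 1 * X (-1) = Y 1 * X (-1) * Y 1 := by
    have ha := h1 (-1) (by norm_num)
    have hb := h2 (-1) (by norm_num)
    rw [hm1, hm2] at ha hb
    -- ha : W * Y 1 = X (-1) * W, hb : Y 1 * W = W * X (-1)
    have hc : X (-1) * Y 1 * X (-1) * Y 1 = X (-1) * (X (-1) * Y 1 * X (-1)) := ha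
    have hd : Y 1 * X (-1) * Y 1 = X (-1) * Y 1 * X (-1) := by
      have : X (-1) * (Y 1 * X (-1) * Y 1) = X (-1) * (X (-1) * Y 1 * X (-1)) := by
        rw [← hc]; group
      exact mul_left_cancel this
    exact hd.symm
  have hx : (x : F) ≠ 0 := x.ne_zero
  have hy : (y : F) ≠ 0 := y.ne_zero
  have key := milnor_computation X Y hX hY h1 h2 h3 x y hx hy hxy
  have key' := milnor_computation X Y hX hY h1 h2 h3 y x hy hx (by rw [add_comm]; exact hxy)
  set W1 := X (-1) * Y 1 * X (-1) with hW1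
  have hcomm : ((X x * Y (-(x : F)⁻¹) * X x) * W1) * ((X y * Y (-(y : F)⁻¹) * X y) * W1) =
      ((X y * Y (-(y : F)⁻¹) * X y) * W1) * ((X x * Y (-(x : F)⁻¹) * X x) * W1) := by
    calc ((X x * Y (-(x : F)⁻¹) * X x) * W1) * ((X y * Y (-(y : F)⁻¹) * X y) * W1)
        = ((X x * Y (-(x : F)⁻¹) * X x) * W1 * (X y * Y (-(y : F)⁻¹) * X y)) * W1 := by group
      _ = ((X y * Y (-(y : F)⁻¹) * X y) * W1 * (X x * Y (-(x : F)⁻¹) * X x)) * W1 := by
          rw [key, key', mul_comm (x : F) y]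
      _ = ((X y * Y (-(y : F)⁻¹) * X y) * W1) * ((X x * Y (-(x : F)⁻¹) * X x) * W1) := by group
  have h4 := CExt.symm_of_comm _ _ hcomm
  have hg : ∀ z : Fˣ, ((X z * Y (-(z : F)⁻¹) * X z) * W1).g = dg z := fun z => dg_eq z
  rwa [hg, hg] at h4

end SL2

end Pool.Agent.MP_fb66b8_al
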