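import Pool.Agent.MP_fb66b8_al.Steinberg

/-!
# MP_fb66b8_al: diagonal torus, permutation matrices and blocks in `GL₃`
-/

set_option autoImplicit false

namespace Pool.Agent.MP_fb66b8_al

open Matrix

variable {F : Type*} [Field F]

/-- the diagonal embedding of the torus in `GL₃` -/
def rho : (Fin 3 → Fˣ) →* GeneralLinearGroup (Fin 3) F where
  toFun t :=
    { val := diagonal (fun i => (t i : F))
      inv := diagonal (fun i => ((t i)⁻¹ : Fˣ) : Fin 3 → F)
      val_inv := by
        rw [diagonal_mul_diagonal, ← diagonal_one]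
        congr 1
        funext i
        simp
      inv_val := by
        rw [diagonal_mul_diagonal, ← diagonal_one]
        congr 1
        funext i
        simp }
  map_one' := by
    apply Units.ext
    simp
  map_mul' s t := by
    apply Units.ext
    simp [diagonal_mul_diagonal]

theorem rho_val (t : Fin 3 → Fˣ) : (rho t).val = diagonal (fun i => (t i : F)) := rfl

/-- the permutation matrices in `GL₃` -/
def perm (σ : Equiv.Perm (Fin 3)) : GeneralLinearGroup (Fin 3) F where
  val := (Equiv.toPEquiv σ).toMatrix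
  inv := (Equiv.toPEquiv σ.symm).toMatrix
  val_inv := by
    rw [← PEquiv.toMatrix_trans, ← Equiv.toPEquiv_trans]
    simp
  inv_val := by
    rw [← PEquiv.toMatrix_trans, ← Equiv.toPEquiv_trans]
    simp

theorem perm_conj (σ : Equiv.Perm (Fin 3)) (t : Fin 3 → Fˣ) :
    perm σ * rho t * (perm σ)⁻¹ = rho (F := F) (t ∘ σ) := by
  rw [mul_inv_eq_iff_eq_mul]
  apply Units.ext
  rw [Units.val_mul, Units.val_mul, rho_val, rho_val]
  change (Equiv.toPEquiv σ).toMatrix * _ = _ * (Equiv.toPEquiv σ).toMatrix
  rw [PEquiv.toMatrix_toPEquiv_mul, PEquiv.mul_toMatrix_toPEquiv]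
  ext i j
  simp only [submatrix_apply, diagonal_apply, Function.comp_apply, id]
  by_cases h : σ i = j
  · subst h
    simp
  · rw [if_neg h, if_neg]
    intro h2
    apply h
    rw [h2]
    simp

/-- the block inclusion on matrices -/
def blk : Matrix (Fin 2) (Fin 2) F →* Matrix (Fin 3) (Fin 3) F where
  toFun A := !![A 0 0, A 0 1, 0; A 1 0, A 1 1, 0; 0, 0, 1]
  map_one' := by
    ext i j
    fin_cases i <;> fin_cases j <;> simp
  map_mul' A B := by
    ext i j
    fin_cases i <;> fin_cases j <;>
      simp [Matrix.mul_apply, Fin.sum_univ_two, Fin.sum_univ_three]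

theorem blk_apply (A : Matrix (Fin 2) (Fin 2) F) :
    blk A = !![A 0 0, A 0 1, 0; A 1 0, A 1 1, 0; 0, 0, 1] := rfl

/-- the block inclusion `A ↦ diag(A,1)` -/
def iota : GeneralLinearGroup (Fin 2) F →* GeneralLinearGroup (Fin 3) F := Units.map blk

theorem iota_val (A : GeneralLinearGroup (Fin 2) F) : (iota A).val = blk A.val := rfl

theorem iota_cond1 (A : GeneralLinearGroup (Fin 2) F) (a b : Fin 2) :
    (iota A).val (Fin.castSucc a) (Fin.castSucc b) = A.val a b := by
  rw [iota_val, blk_apply]
  fin_cases a <;> fin_cases b <;> rfl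

theorem iota_cond2 (A : GeneralLinearGroup (Fin 2) F) (a : Fin 2) :
    (iota A).val (Fin.castSucc a) (Fin.last 2) = 0 := by
  rw [iota_val, blk_apply]
  fin_cases a <;> rfl

theorem iota_cond3 (A : GeneralLinearGroup (Fin 2) F) (a : Fin 2) :
    (iota A).val (Fin.last 2) (Fin.castSucc a) = 0 := by
  rw [iota_val, blk_apply]
  fin_cases a <;> rfl

theorem iota_cond4 (A : GeneralLinearGroup (Fin 2) F) :
    (iota A).val (Fin.last 2) (Fin.last 2) = 1 := by
  rw [iota_val, blk_apply]
  rfl

/-- torus elements equal in the first two coordinates centralise the block -/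
theorem rho_comm_iota (w : Fin 3 → Fˣ) (hw : w 0 = w 1) (A : GeneralLinearGroup (Fin 2) F) :
    Commute (rho w) (iota A) := by
  apply Units.ext
  rw [Units.val_mul, Units.val_mul, iota_val, blk_apply, rho_val]
  ext i j
  fin_cases i <;> fin_cases j <;>
    simp [Matrix.mul_apply, diagonal_apply, hw, mul_comm]

/-- the block inclusion of `SL₂` in `GL₃` -/
def beta : SpecialLinearGroup (Fin 2) F →* GeneralLinearGroup (Fin 3) F :=
  iota.comp SpecialLinearGroup.toGL

/-- the torus element `(x, x⁻¹, 1)` -/
def al (x : Fˣ) : Fin 3 → Fˣ := ![x, x⁻¹, 1]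

theorem beta_dg (x : Fˣ) : beta (dg x) = rho (al x) := by
  apply Units.ext
  change blk (!![(x : F), 0; 0, ((x⁻¹ : Fˣ) : F)]) = _
  rw [blk_apply, rho_val]
  ext i j
  fin_cases i <;> fin_cases j <;> simp [al]

end Pool.Agent.MP_fb66b8_al
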