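import Pool.Agent.MP_fb66b8_al.Cochain

/-!
# MP_fb66b8_al: the `4`-cocycle attached to a commensurated subset of `G ⧸ Γ` and three characters
-/

set_option autoImplicit false

namespace Pool.Agent.MP_fb66b8_al

section Abstract

variable {G : Type*} [Group G] (Γ : Subgroup G)

/-- `χ` restricts to a homomorphism on `Γ` -/
def IsChar (χ : G → ℚ) : Prop := ∀ a ∈ Γ, ∀ b ∈ Γ, χ (a * b) = χ a + χ b

variable {Γ}

theorem IsChar.one {χ : G → ℚ} (h : IsChar Γ χ) : χ 1 = 0 := by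
  have := h 1 Γ.one_mem 1 Γ.one_mem
  rw [mul_one] at this
  linarith

theorem IsChar.inv {χ : G → ℚ} (h : IsChar Γ χ) {a : G} (ha : a ∈ Γ) : χ a⁻¹ = - χ a := by
  have := h a ha a⁻¹ (Γ.inv_mem ha)
  rw [mul_inv_cancel, h.one] at this
  linarith

/-- the transition element in `Γ` -/
noncomputable def tr (g : G) (e : G ⧸ Γ) : G := (Quotient.out e)⁻¹ * g * Quotient.out (g⁻¹ • e)

theorem tr_mem (g : G) (e : G ⧸ Γ) : tr g e ∈ Γ := by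
  have h : ((Quotient.out e : G) : G ⧸ Γ) = ((g * Quotient.out (g⁻¹ • e) : G) : G ⧸ Γ) := by
    rw [QuotientGroup.out_eq']
    have : ((g * Quotient.out (g⁻¹ • e) : G) : G ⧸ Γ) =
        g • ((Quotient.out (g⁻¹ • e) : G) : G ⧸ Γ) := rfl
    rw [this, QuotientGroup.out_eq', smul_inv_smul]
  have h2 := QuotientGroup.eq.mp h
  rw [tr, mul_assoc]
  exact h2

theorem tr_mul (g h : G) (e : G ⧸ Γ) : tr (g * h) e = tr g e * tr h (g⁻¹ • e) := by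
  simp only [tr, mul_inv_rev, mul_smul]
  group

/-- the `1`-cocycle with values in functions on `G ⧸ Γ` induced from `χ` -/
noncomputable def hat (χ : G → ℚ) (g : G) (e : G ⧸ Γ) : ℚ := χ (tr g e)

theorem hat_mul {χ : G → ℚ} (h : IsChar Γ χ) (g k : G) (e : G ⧸ Γ) :
    hat χ (g * k) e = hat χ g e + hat χ k (g⁻¹ • e) := by
  rw [hat, tr_mul, h _ (tr_mem _ _) _ (tr_mem _ _)]
  rfl

theorem hat_fixed {χ : G → ℚ} (h : IsChar Γ χ) (g x : G) (hx : x⁻¹ * g * x ∈ Γ) :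
    hat χ g (x : G ⧸ Γ) = χ (x⁻¹ * g * x) := by
  have h1 : (g⁻¹ • (x : G ⧸ Γ)) = (x : G ⧸ Γ) := by
    have : (g⁻¹ • (x : G ⧸ Γ)) = ((g⁻¹ * x : G) : G ⧸ Γ) := rfl
    rw [this, QuotientGroup.eq]
    have e : (g⁻¹ * x)⁻¹ * x = x⁻¹ * g * x := by group
    rw [e]
    exact hx
  obtain ⟨γ, hγ⟩ : ∃ γ ∈ Γ, (Quotient.out (x : G ⧸ Γ) : G) = x * γ := by
    refine ⟨x⁻¹ * Quotient.out (x : G ⧸ Γ), ?_, by group⟩
    have : ((x : G) : G ⧸ Γ) = ((Quotient.out (x : G ⧸ Γ) : G) : G ⧸ Γ) := by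
      rw [QuotientGroup.out_eq']
    exact QuotientGroup.eq.mp this
  rw [hat, tr, h1, hγ.2]
  have e : (x * γ)⁻¹ * g * (x * γ) = γ⁻¹ * (x⁻¹ * g * x) * γ := by group
  rw [e, h _ (Γ.mul_mem (Γ.inv_mem hγ.1) hx) _ hγ.1, h _ (Γ.inv_mem hγ.1) _ hx, h.inv hγ.1]
  ring

/-- the `1`-cocycle attached to a subset -/
noncomputable def cc (A : Set (G ⧸ Γ)) (g : G) (e : G ⧸ Γ) : ℚ :=
  A.indicator (fun _ => (1 : ℚ)) e - A.indicator (fun _ => (1 : ℚ)) (g⁻¹ • e)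

theorem cc_mul (A : Set (G ⧸ Γ)) (g k : G) (e : G ⧸ Γ) :
    cc A (g * k) e = cc A g e + cc A k (g⁻¹ • e) := by
  have h : (g * k)⁻¹ • e = k⁻¹ • g⁻¹ • e := by rw [mul_inv_rev, mul_smul]
  simp only [cc, h]
  ring

theorem cc_one (A : Set (G ⧸ Γ)) (e : G ⧸ Γ) : cc A 1 e = 0 := by
  simp [cc]

theorem cc_inv (A : Set (G ⧸ Γ)) (g : G) (e : G ⧸ Γ) : cc A g⁻¹ e = - cc A g (g • e) := by
  simp only [cc, inv_inv, inv_smul_smul]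
  ring

theorem supp_mul (A : Set (G ⧸ Γ)) (g k : G) (hg : (Function.support (cc A g)).Finite)
    (hk : (Function.support (cc A k)).Finite) : (Function.support (cc A (g * k))).Finite := by
  have h1 : (Function.support fun e => cc A k (g⁻¹ • e)).Finite :=
    hk.preimage (f := fun e : G ⧸ Γ => g⁻¹ • e) ((MulAction.injective g⁻¹).injOn)
  refine (hg.union h1).subset ?_
  intro e he
  by_contra hne
  simp only [Set.mem_union, Function.mem_support, not_or, not_not] at hne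
  apply he
  rw [cc_mul, hne.1, hne.2, add_zero]

theorem supp_inv (A : Set (G ⧸ Γ)) (g : G) (hg : (Function.support (cc A g)).Finite) :
    (Function.support (cc A g⁻¹)).Finite := by
  have h1 : (Function.support fun e => cc A g (g • e)).Finite :=
    hg.preimage (f := fun e : G ⧸ Γ => g • e) ((MulAction.injective g).injOn)
  refine h1.subset ?_
  intro e he hne
  apply he
  have : cc A g (g • e) = 0 := hne
  rw [cc_inv, this, neg_zero]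

/-- The subgroup of elements commensurating `A`. -/
def commSub (A : Set (G ⧸ Γ)) : Subgroup G where
  carrier := {g | (Function.support (cc A g)).Finite}
  mul_mem' := fun {g k} hg hk => supp_mul A g k hg hk
  one_mem' := by
    have : Function.support (cc A (1 : G)) = ∅ := by
      ext e; simp [cc_one]
    change (Function.support (cc A (1 : G))).Finite
    rw [this]; exact Set.finite_empty
  inv_mem' := fun {g} hg => supp_inv A g hg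

/-- the commensuration hypothesis -/
def Commens (A : Set (G ⧸ Γ)) : Prop := ∀ g : G, (Function.support (cc A g)).Finite

/-- the `4`-cochain -/
noncomputable def zz (A : Set (G ⧸ Γ)) (χ₁ χ₂ χ₃ : G → ℚ) (g₁ g₂ g₃ g₄ : G) : ℚ :=
  ∑ᶠ e : G ⧸ Γ, cc A g₁ e * hat χ₁ g₂ (g₁⁻¹ • e) * hat χ₂ g₃ (g₂⁻¹ • g₁⁻¹ • e) *
    hat χ₃ g₄ (g₃⁻¹ • g₂⁻¹ • g₁⁻¹ • e)

theorem zz_cocycle (A : Set (G ⧸ Γ)) (hA : Commens A) (χ₁ χ₂ χ₃ : G → ℚ)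
    (h₁ : IsChar Γ χ₁) (h₂ : IsChar Γ χ₂) (h₃ : IsChar Γ χ₃) (x y z w v : G) :
    del4 (zz A χ₁ χ₂ χ₃) x y z w v = 0 := by
  have hs : ∀ (g k : G) (e : G ⧸ Γ), (g * k)⁻¹ • e = k⁻¹ • g⁻¹ • e := by
    intro g k e; rw [mul_inv_rev, mul_smul]
  -- the six summands as functions on `G ⧸ Γ`
  let φ1 : G ⧸ Γ → ℚ := fun e => cc A y (x⁻¹ • e) * hat χ₁ z (y⁻¹ • x⁻¹ • e) *
    hat χ₂ w (z⁻¹ • y⁻¹ • x⁻¹ • e) * hat χ₃ v (w⁻¹ • z⁻¹ • y⁻¹ • x⁻¹ • e)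
  let φ2 : G ⧸ Γ → ℚ := fun e => cc A (x * y) e * hat χ₁ z (y⁻¹ • x⁻¹ • e) *
    hat χ₂ w (z⁻¹ • y⁻¹ • x⁻¹ • e) * hat χ₃ v (w⁻¹ • z⁻¹ • y⁻¹ • x⁻¹ • e)
  let φ3 : G ⧸ Γ → ℚ := fun e => cc A x e * hat χ₁ (y * z) (x⁻¹ • e) *
    hat χ₂ w (z⁻¹ • y⁻¹ • x⁻¹ • e) * hat χ₃ v (w⁻¹ • z⁻¹ • y⁻¹ • x⁻¹ • e)
  let φ4 : G ⧸ Γ → ℚ := fun e => cc A x e * hat χ₁ y (x⁻¹ • e) *
    hat χ₂ (z * w) (y⁻¹ • x⁻¹ • e) * hat χ₃ v (w⁻¹ • z⁻¹ • y⁻¹ • x⁻¹ • e)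
  let φ5 : G ⧸ Γ → ℚ := fun e => cc A x e * hat χ₁ y (x⁻¹ • e) *
    hat χ₂ z (y⁻¹ • x⁻¹ • e) * hat χ₃ (w * v) (z⁻¹ • y⁻¹ • x⁻¹ • e)
  let φ6 : G ⧸ Γ → ℚ := fun e => cc A x e * hat χ₁ y (x⁻¹ • e) *
    hat χ₂ z (y⁻¹ • x⁻¹ • e) * hat χ₃ w (z⁻¹ • y⁻¹ • x⁻¹ • e)
  have e1 : zz A χ₁ χ₂ χ₃ y z w v = ∑ᶠ e, φ1 e := by
    rw [zz]
    exact (finsum_comp_equiv (MulAction.toPerm x⁻¹ : Equiv.Perm (G ⧸ Γ))
      (f := fun e : G ⧸ Γ => cc A y e * hat χ₁ z (y⁻¹ • e) * hat χ₂ w (z⁻¹ • y⁻¹ • e) *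
        hat χ₃ v (w⁻¹ • z⁻¹ • y⁻¹ • e))).symm
  have e2 : zz A χ₁ χ₂ χ₃ (x * y) z w v = ∑ᶠ e, φ2 e := by
    rw [zz]; exact finsum_congr fun e => by simp only [φ2, hs]
  have e3 : zz A χ₁ χ₂ χ₃ x (y * z) w v = ∑ᶠ e, φ3 e := by
    rw [zz]; exact finsum_congr fun e => by simp only [φ3, hs]
  have e4 : zz A χ₁ χ₂ χ₃ x y (z * w) v = ∑ᶠ e, φ4 e := by
    rw [zz]; exact finsum_congr fun e => by simp only [φ4, hs]
  have e5 : zz A χ₁ χ₂ χ₃ x y z (w * v) = ∑ᶠ e, φ5 e := by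
    rw [zz]
  have e6 : zz A χ₁ χ₂ χ₃ x y z w = ∑ᶠ e, φ6 e := by
    rw [zz]
  have key : ∀ (φ c : G ⧸ Γ → ℚ), (Function.support c).Finite → (∀ e, c e = 0 → φ e = 0) →
      (Function.support φ).Finite := by
    intro φ c hc h
    refine hc.subset ?_
    intro e he hce
    exact he (h e hce)
  have f1 : (Function.support φ1).Finite := by
    refine key φ1 (fun e => cc A y (x⁻¹ • e)) ?_ ?_
    · have := (hA y).preimage (f := fun e : G ⧸ Γ => x⁻¹ • e)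
        ((MulAction.injective x⁻¹).injOn)
      exact this
    · intro e he; simp only [φ1, he, zero_mul]
  have f2 : (Function.support φ2).Finite :=
    key φ2 _ (hA (x * y)) (fun e he => by simp only [φ2, he, zero_mul])
  have f3 : (Function.support φ3).Finite :=
    key φ3 _ (hA x) (fun e he => by simp only [φ3, he, zero_mul])
  have f4 : (Function.support φ4).Finite :=
    key φ4 _ (hA x) (fun e he => by simp only [φ4, he, zero_mul])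
  have f5 : (Function.support φ5).Finite :=
    key φ5 _ (hA x) (fun e he => by simp only [φ5, he, zero_mul])
  have f6 : (Function.support φ6).Finite :=
    key φ6 _ (hA x) (fun e he => by simp only [φ6, he, zero_mul])
  have hsum : ∀ e, φ1 e = φ2 e - φ3 e + φ4 e - φ5 e + φ6 e := by
    intro e
    simp only [φ1, φ2, φ3, φ4, φ5, φ6, cc_mul, hat_mul h₁, hat_mul h₂, hat_mul h₃]
    ring
  rw [del4, e1, e2, e3, e4, e5, e6]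
  have hc : ∑ᶠ e, φ1 e = ∑ᶠ e, φ2 e - ∑ᶠ e, φ3 e + ∑ᶠ e, φ4 e - ∑ᶠ e, φ5 e + ∑ᶠ e, φ6 e := by
    rw [← finsum_sub_distrib f2 f3]
    have f23 : (Function.support fun e => φ2 e - φ3 e).Finite :=
      (f2.union f3).subset (Function.support_sub φ2 φ3)
    rw [← finsum_add_distrib f23 f4]
    have f234 : (Function.support fun e => φ2 e - φ3 e + φ4 e).Finite :=
      (f23.union f4).subset (Function.support_add (fun e => φ2 e - φ3 e) φ4)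
    rw [← finsum_sub_distrib f234 f5]
    have f2345 : (Function.support fun e => φ2 e - φ3 e + φ4 e - φ5 e).Finite :=
      (f234.union f5).subset (Function.support_sub (fun e => φ2 e - φ3 e + φ4 e) φ5)
    rw [← finsum_add_distrib f2345 f6]
    exact finsum_congr hsum
  rw [hc]
  ring

theorem zz_zero (A : Set (G ⧸ Γ)) (χ₁ χ₂ χ₃ : G → ℚ) (g₁ g₂ g₃ g₄ : G)
    (h : ∀ e : G ⧸ Γ, cc A g₁ e = 0) : zz A χ₁ χ₂ χ₃ g₁ g₂ g₃ g₄ = 0 := by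
  rw [zz]
  simp [h]

open Classical in
theorem zz_eval (A : Set (G ⧸ Γ)) (χ₁ χ₂ χ₃ : G → ℚ)
    (h₁ : IsChar Γ χ₁) (h₂ : IsChar Γ χ₂) (h₃ : IsChar Γ χ₃) (x w g₂ g₃ g₄ : G)
    (hx : ∀ e : G ⧸ Γ, cc A x e = (if e = ((1 : G) : G ⧸ Γ) then 1 else 0) -
      (if e = ((w : G) : G ⧸ Γ) then 1 else 0))
    (c2 : Commute x g₂) (c3 : Commute x g₃) (c4 : Commute x g₄) (c23 : Commute g₂ g₃)
    (c24 : Commute g₂ g₄) (c34 : Commute g₃ g₄)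
    (m2 : g₂ ∈ Γ) (m3 : g₃ ∈ Γ) (m4 : g₄ ∈ Γ)
    (w2 : w⁻¹ * g₂ * w ∈ Γ) (w3 : w⁻¹ * g₃ * w ∈ Γ) (w4 : w⁻¹ * g₄ * w ∈ Γ) :
    zz A χ₁ χ₂ χ₃ x g₂ g₃ g₄ = χ₁ g₂ * χ₂ g₃ * χ₃ g₄ -
      χ₁ (w⁻¹ * g₂ * w) * χ₂ (w⁻¹ * g₃ * w) * χ₃ (w⁻¹ * g₄ * w) := by
  have hval : ∀ y : G, y⁻¹ * g₂ * y ∈ Γ → y⁻¹ * g₃ * y ∈ Γ → y⁻¹ * g₄ * y ∈ Γ →
      hat χ₁ g₂ (x⁻¹ • (y : G ⧸ Γ)) * hat χ₂ g₃ (g₂⁻¹ • x⁻¹ • (y : G ⧸ Γ)) *
        hat χ₃ g₄ (g₃⁻¹ • g₂⁻¹ • x⁻¹ • (y : G ⧸ Γ)) =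
      χ₁ (y⁻¹ * g₂ * y) * χ₂ (y⁻¹ * g₃ * y) * χ₃ (y⁻¹ * g₄ * y) := by
    intro y hy2 hy3 hy4
    have e2 : (x⁻¹ * y)⁻¹ * g₂ * (x⁻¹ * y) = y⁻¹ * g₂ * y := by
      have : x * g₂ = g₂ * x := c2
      calc (x⁻¹ * y)⁻¹ * g₂ * (x⁻¹ * y) = y⁻¹ * (x * g₂) * x⁻¹ * y := by group
        _ = y⁻¹ * (g₂ * x) * x⁻¹ * y := by rw [this]
        _ = _ := by group
    have e3 : (g₂⁻¹ * (x⁻¹ * y))⁻¹ * g₃ * (g₂⁻¹ * (x⁻¹ * y)) = y⁻¹ * g₃ * y := by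
      have h1 : x * g₃ = g₃ * x := c3
      have h2 : g₂ * g₃ = g₃ * g₂ := c23
      calc (g₂⁻¹ * (x⁻¹ * y))⁻¹ * g₃ * (g₂⁻¹ * (x⁻¹ * y))
          = y⁻¹ * x * (g₂ * g₃) * g₂⁻¹ * x⁻¹ * y := by group
        _ = y⁻¹ * x * (g₃ * g₂) * g₂⁻¹ * x⁻¹ * y := by rw [h2]
        _ = y⁻¹ * (x * g₃) * x⁻¹ * y := by group
        _ = y⁻¹ * (g₃ * x) * x⁻¹ * y := by rw [h1]
        _ = _ := by group
    have e4 : (g₃⁻¹ * (g₂⁻¹ * (x⁻¹ * y)))⁻¹ * g₄ * (g₃⁻¹ * (g₂⁻¹ * (x⁻¹ * y))) =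
        y⁻¹ * g₄ * y := by
      have h1 : x * g₄ = g₄ * x := c4
      have h2 : g₂ * g₄ = g₄ * g₂ := c24
      have h3 : g₃ * g₄ = g₄ * g₃ := c34
      calc (g₃⁻¹ * (g₂⁻¹ * (x⁻¹ * y)))⁻¹ * g₄ * (g₃⁻¹ * (g₂⁻¹ * (x⁻¹ * y)))
          = y⁻¹ * x * g₂ * (g₃ * g₄) * g₃⁻¹ * g₂⁻¹ * x⁻¹ * y := by group
        _ = y⁻¹ * x * g₂ * (g₄ * g₃) * g₃⁻¹ * g₂⁻¹ * x⁻¹ * y := by rw [h3]
        _ = y⁻¹ * x * (g₂ * g₄) * g₂⁻¹ * x⁻¹ * y := by group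
        _ = y⁻¹ * x * (g₄ * g₂) * g₂⁻¹ * x⁻¹ * y := by rw [h2]
        _ = y⁻¹ * (x * g₄) * x⁻¹ * y := by group
        _ = y⁻¹ * (g₄ * x) * x⁻¹ * y := by rw [h1]
        _ = _ := by group
    have s1 : x⁻¹ • (y : G ⧸ Γ) = ((x⁻¹ * y : G) : G ⧸ Γ) := rfl
    have s2 : g₂⁻¹ • ((x⁻¹ * y : G) : G ⧸ Γ) = ((g₂⁻¹ * (x⁻¹ * y) : G) : G ⧸ Γ) := rfl
    have s3 : g₃⁻¹ • ((g₂⁻¹ * (x⁻¹ * y) : G) : G ⧸ Γ) =
      ((g₃⁻¹ * (g₂⁻¹ * (x⁻¹ * y)) : G) : G ⧸ Γ) := rfl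
    rw [s1, s2, s3, hat_fixed h₁ g₂ (x⁻¹ * y) (by rw [e2]; exact hy2), e2,
      hat_fixed h₂ g₃ (g₂⁻¹ * (x⁻¹ * y)) (by rw [e3]; exact hy3), e3,
      hat_fixed h₃ g₄ (g₃⁻¹ * (g₂⁻¹ * (x⁻¹ * y))) (by rw [e4]; exact hy4), e4]
  set Φ : G ⧸ Γ → ℚ := fun e => hat χ₁ g₂ (x⁻¹ • e) * hat χ₂ g₃ (g₂⁻¹ • x⁻¹ • e) *
    hat χ₃ g₄ (g₃⁻¹ • g₂⁻¹ • x⁻¹ • e) with hΦ
  have hzz : zz A χ₁ χ₂ χ₃ x g₂ g₃ g₄ = ∑ᶠ e : G ⧸ Γ,
      ((if e = ((1 : G) : G ⧸ Γ) then Φ e else 0) - (if e = ((w : G) : G ⧸ Γ) then Φ e else 0)) := by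
    rw [zz]
    refine finsum_congr fun e => ?_
    rw [hx e]
    simp only [hΦ]
    split_ifs <;> ring
  have hf1 : ∀ e0 : G ⧸ Γ, (Function.support fun e => if e = e0 then Φ e else 0).Finite := by
    intro e0
    refine (Set.finite_singleton e0).subset ?_
    intro e he
    by_contra hne
    apply he
    simp only [Set.mem_singleton_iff] at hne
    simp [hne]
  have hf2 : ∀ e0 : G ⧸ Γ, ∑ᶠ e : G ⧸ Γ, (if e = e0 then Φ e else 0) = Φ e0 := by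
    intro e0
    rw [finsum_eq_single _ e0 (fun e he => by simp [he])]
    simp
  rw [hzz, finsum_sub_distrib (hf1 _) (hf1 _), hf2, hf2]
  have v1 := hval 1 (by simpa using m2) (by simpa using m3) (by simpa using m4)
  have v2 := hval w w2 w3 w4
  simp only [hΦ]
  rw [v1, v2]
  simp

end Abstract

end Pool.Agent.MP_fb66b8_al
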